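import Pool.Agent.Lib.MP_f05b2f_co.F.Lam

/-!
Basic properties of `H ls a b`: monotonicity, Lipschitz bounds, periodicity in `b`, symmetry,
complement, decomposition by a block of digits, subadditivity in `b`.
-/

namespace DKWF

open Finset

theorem H_zero_right (ls : List ℕ) (a : ℕ) : H ls a 0 = 0 := by simp [H]

theorem H_zero_left (ls : List ℕ) (b : ℕ) : H ls 0 b = 0 := by simp [H]

theorem H_succ (ls : List ℕ) (a b : ℕ) :
    H ls a (b + 1) = H ls a b + if lam ls b < a then 1 else 0 := by
  simp only [H]
  rw [sum_range_succ]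

theorem H_mono_left (ls : List ℕ) {a a' : ℕ} (h : a ≤ a') (b : ℕ) : H ls a b ≤ H ls a' b := by
  induction b with
  | zero => simp [H_zero_right]
  | succ b ih =>
    rw [H_succ, H_succ]
    split_ifs <;> omega

theorem H_mono_right (ls : List ℕ) (a : ℕ) {b b' : ℕ} (h : b ≤ b') : H ls a b ≤ H ls a b' := by
  obtain ⟨c, rfl⟩ := Nat.exists_eq_add_of_le h
  clear h
  induction c with
  | zero => simp
  | succ c ih =>
    rw [← add_assoc, H_succ]
    omega

theorem H_lip_right (ls : List ℕ) (a b c : ℕ) : H ls a (b + c) ≤ H ls a b + c := by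
  induction c with
  | zero => simp
  | succ c ih =>
    rw [← add_assoc, H_succ]
    split_ifs <;> omega

theorem H_le_right (ls : List ℕ) (a b : ℕ) : H ls a b ≤ b := by
  have := H_lip_right ls a 0 b
  rw [H_zero_right] at this
  simpa using this

theorem H_full {ls : List ℕ} (h : Pos ls) {a : ℕ} (ha : ls.prod ≤ a) (b : ℕ) : H ls a b = b := by
  induction b with
  | zero => simp [H_zero_right]
  | succ b ih =>
    rw [H_succ, ih, if_pos (lt_of_lt_of_le (lam_lt h b) ha)]

/-- clipping of the first argument -/
theorem H_clip {ls : List ℕ} (h : Pos ls) (a b : ℕ) : H ls (min a ls.prod) b = H ls a b := by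
  induction b with
  | zero => simp [H_zero_right]
  | succ b ih =>
    rw [H_succ, H_succ, ih]
    have := lam_lt h b
    congr 1
    by_cases h1 : lam ls b < a
    · rw [if_pos h1, if_pos (lt_min h1 this)]
    · rw [if_neg h1, if_neg (fun h2 => h1 (lt_of_lt_of_le h2 (min_le_left _ _)))]

theorem H_eq_card (ls : List ℕ) (a b : ℕ) : H ls a b = #{t ∈ range b | lam ls t < a} := by
  rw [H, card_filter]

theorem H_comm {ls : List ℕ} (h : Pos ls) {a b : ℕ} (ha : a ≤ ls.prod) (hb : b ≤ ls.prod) :
    H ls a b = H ls.reverse b a := by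
  rw [H_eq_card, H_eq_card]
  refine card_bij' (fun t _ => lam ls t) (fun s _ => lam ls.reverse s) ?_ ?_ ?_ ?_
  · intro t ht
    rw [mem_filter, mem_range] at ht ⊢
    exact ⟨ht.2, by rw [lam_reverse h (lt_of_lt_of_le ht.1 hb)]; exact ht.1⟩
  · intro s hs
    rw [mem_filter, mem_range] at hs ⊢
    exact ⟨hs.2, by rw [lam_reverse' h (lt_of_lt_of_le hs.1 ha)]; exact hs.1⟩
  · intro t ht
    rw [mem_filter, mem_range] at ht
    exact lam_reverse h (lt_of_lt_of_le ht.1 hb)
  · intro s hs
    rw [mem_filter, mem_range] at hs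
    exact lam_reverse' h (lt_of_lt_of_le hs.1 ha)

theorem H_prod {ls : List ℕ} (h : Pos ls) {a : ℕ} (ha : a ≤ ls.prod) : H ls a ls.prod = a := by
  rw [H_comm h ha le_rfl, ← prod_reverse ls]
  exact H_full h.reverse le_rfl a

theorem H_lip_left {ls : List ℕ} (h : Pos ls) (a c : ℕ) {b : ℕ} (hb : b ≤ ls.prod) :
    H ls (a + c) b ≤ H ls a b + c := by
  rw [← H_clip h (a + c), ← H_clip h a, H_comm h (min_le_right _ _) hb,
    H_comm h (min_le_right _ _) hb]
  obtain ⟨d, hd⟩ : ∃ d, min (a + c) ls.prod = min a ls.prod + d :=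
    Nat.exists_eq_add_of_le (by omega)
  have h1 := H_lip_right ls.reverse b (min a ls.prod) d
  rw [hd]
  omega

theorem H_le_left {ls : List ℕ} (h : Pos ls) (a : ℕ) {b : ℕ} (hb : b ≤ ls.prod) :
    H ls a b ≤ a := by
  have := H_lip_left h 0 a hb
  rw [H_zero_left] at this
  simpa using this

theorem H_add_prod {ls : List ℕ} (h : Pos ls) (a b : ℕ) :
    H ls a (ls.prod + b) = H ls a ls.prod + H ls a b := by
  induction b with
  | zero => simp [H_zero_right]
  | succ b ih =>
    rw [← add_assoc, H_succ, H_succ, ih]
    have e : lam ls (ls.prod + b) = lam ls b := by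
      have := lam_add h b 1
      rwa [mul_one, add_comm] at this
    rw [e]
    omega

theorem H_period {ls : List ℕ} (h : Pos ls) {a : ℕ} (ha : a ≤ ls.prod) (c b : ℕ) :
    H ls a (c * ls.prod + b) = c * a + H ls a b := by
  induction c with
  | zero => simp
  | succ c ih =>
    have e : (c + 1) * ls.prod + b = ls.prod + (c * ls.prod + b) := by ring
    rw [e, H_add_prod h, ih, H_prod h ha]
    ring

/-- complement in a box repeated `c` times -/
theorem H_compl {ls : List ℕ} (h : Pos ls) {n c b : ℕ} (hn : n ≤ ls.prod)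
    (hb : b ≤ c * ls.prod) :
    H ls (ls.prod - n) (c * ls.prod - b) + c * n + b = c * ls.prod + H ls n b := by
  obtain ⟨d, hd⟩ := Nat.exists_eq_add_of_le hb
  have e1 : c * ls.prod - b = d := by omega
  rw [e1]
  -- induction on d: the last d elements
  have key : ∀ d, d ≤ c * ls.prod →
      H ls (ls.prod - n) d + H ls n (c * ls.prod) = d + H ls n (c * ls.prod - d) := by
    intro d
    induction d with
    | zero => intro _; simp [H_zero_right]
    | succ d ih =>
      intro hd
      have ih := ih (by omega)
      have e2 : c * ls.prod - d = (c * ls.prod - 1 - d) + 1 := by omega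
      have e3 : c * ls.prod - (d + 1) = c * ls.prod - 1 - d := by omega
      rw [e2, H_succ] at ih
      rw [H_succ, e3]
      have h1 := lam_compl h (c := c) (t := d) (by omega)
      split_ifs at ih ⊢ <;> omega
  have h2 := key d (by omega)
  have h3 : H ls n (c * ls.prod) = c * n := by
    have := H_period h hn c 0
    simpa [H_zero_right] using this
  have e4 : c * ls.prod - d = b := by omega
  rw [h3, e4] at h2
  omega

/-- sum of the column lengths -/
theorem ceil_succ {U : ℕ} (hU : 0 < U) (b ρ : ℕ) (hρ : ρ < U) :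
    (b + 1 + (U - 1 - ρ)) / U = (b + (U - 1 - ρ)) / U + if ρ = b % U then 1 else 0 := by
  obtain ⟨q, r, hr, rfl⟩ : ∃ q r, r < U ∧ b = U * q + r :=
    ⟨b / U, b % U, Nat.mod_lt _ hU, (Nat.div_add_mod b U).symm⟩
  have e1 : (U * q + r) % U = r := by rw [Nat.mul_add_mod]; exact Nat.mod_eq_of_lt hr
  rw [e1]
  have e2 : U * q + r + 1 + (U - 1 - ρ) = U * q + (r + U - ρ) := by omega
  have e3 : U * q + r + (U - 1 - ρ) = U * q + (r + U - 1 - ρ) := by omega
  rw [e2, e3, Nat.mul_add_div hU, Nat.mul_add_div hU]
  have h1 : (r + U - ρ) / U = if ρ ≤ r then 1 else 0 := by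
    split_ifs with h
    · rw [Nat.div_eq_iff hU]; omega
    · rw [Nat.div_eq_of_lt]; omega
  have h2 : (r + U - 1 - ρ) / U = if ρ < r then 1 else 0 := by
    split_ifs with h
    · rw [Nat.div_eq_iff hU]; omega
    · rw [Nat.div_eq_of_lt]; omega
  rw [h1, h2]
  split_ifs <;> omega

/-- the value of a column length at its own index -/
theorem ceil_self {U : ℕ} (hU : 0 < U) (b : ℕ) : (b + (U - 1 - b % U)) / U = b / U := by
  have h1 := Nat.div_add_mod b U
  have h2 := Nat.mod_lt b hU
  have e : b + (U - 1 - b % U) = U * (b / U) + (U - 1) := by omega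
  have e2 : (U - 1) / U = 0 := Nat.div_eq_of_lt (by omega)
  rw [e, Nat.mul_add_div hU, e2, add_zero]

/-- decomposition by the first block of digits -/
theorem H_append {l1 l2 : List ℕ} (h1 : Pos l1) (a b : ℕ) :
    H (l1 ++ l2) a b = ∑ ρ ∈ range l1.prod,
      H l2 (a - lam l1 ρ * l2.prod) ((b + (l1.prod - 1 - ρ)) / l1.prod) := by
  have hU := h1.prod_pos
  induction b with
  | zero =>
    rw [H_zero_right]
    symm
    apply sum_eq_zero
    intro ρ hρ
    rw [Nat.div_eq_of_lt (by omega), H_zero_right]
  | succ b ih =>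
    rw [H_succ, ih]
    have hb : b % l1.prod < l1.prod := Nat.mod_lt _ hU
    have e1 : ∀ ρ ∈ range l1.prod,
        H l2 (a - lam l1 ρ * l2.prod) ((b + 1 + (l1.prod - 1 - ρ)) / l1.prod) =
        H l2 (a - lam l1 ρ * l2.prod) ((b + (l1.prod - 1 - ρ)) / l1.prod) +
          if ρ = b % l1.prod then (if lam (l1 ++ l2) b < a then 1 else 0) else 0 := by
      intro ρ hρ
      rw [ceil_succ hU b ρ (mem_range.1 hρ)]
      by_cases h : ρ = b % l1.prod
      · rw [if_pos h, if_pos h, H_succ]
        congr 1
        have e2 : lam l1 ρ = lam l1 b := by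
          have := lam_add h1 (b % l1.prod) (b / l1.prod)
          rw [Nat.mod_add_div] at this
          rw [h, ← this]
        rw [lam_append, e2]
        have e3 : (b + (l1.prod - 1 - ρ)) / l1.prod = b / l1.prod := by
          rw [h]; exact ceil_self hU b
        rw [e3]
        split_ifs <;> omega
      · rw [if_neg h, if_neg h]; simp
    rw [sum_congr rfl e1, sum_add_distrib, sum_ite_eq' (range l1.prod) (b % l1.prod),
      if_pos (mem_range.2 hb)]

theorem H_cons {l : ℕ} {ls : List ℕ} (hl : 0 < l) (a b : ℕ) :
    H (l :: ls) a b = ∑ z ∈ range l, H ls (a - z * ls.prod) ((b + (l - 1 - z)) / l) := by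
  have h := H_append (l1 := [l]) (l2 := ls) (by simp [Pos, hl]) a b
  simp only [List.singleton_append, List.prod_cons, List.prod_nil, mul_one] at h
  rw [h]
  apply sum_congr rfl
  intro z hz
  rw [lam_singleton, Nat.mod_eq_of_lt (mem_range.1 hz)]

theorem H_snoc {l : ℕ} {ls : List ℕ} (hl : 0 < l) (n b : ℕ) :
    H (ls ++ [l]) (l * n) b = H ls n b := by
  induction b with
  | zero => simp [H_zero_right]
  | succ b ih =>
    rw [H_succ, H_succ, ih, lam_append, lam_singleton]
    simp only [List.prod_cons, List.prod_nil, mul_one]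
    have h1 := Nat.mod_lt (b / ls.prod) hl
    congr 1
    by_cases h : lam ls b < n
    · rw [if_pos h, if_pos]
      calc lam ls b * l + b / ls.prod % l < lam ls b * l + l := by omega
        _ = (lam ls b + 1) * l := by ring
        _ ≤ n * l := Nat.mul_le_mul_right _ h
        _ = l * n := by ring
    · rw [if_neg h, if_neg]
      have h2 : n * l ≤ lam ls b * l := Nat.mul_le_mul_right _ (not_lt.1 h)
      rw [mul_comm l n]
      omega

theorem H_one {l : ℕ} (a : ℕ) {b : ℕ} (hb : b ≤ l) : H [l] a b = min a b := by
  induction b with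
  | zero => simp [H_zero_right]
  | succ b ih =>
    rw [H_succ, ih (by omega), lam_singleton, Nat.mod_eq_of_lt (by omega)]
    split_ifs <;> omega

theorem H_nil (a b : ℕ) : H [] a b = if 0 < a then b else 0 := by
  induction b with
  | zero => simp [H_zero_right]
  | succ b ih =>
    rw [H_succ, ih, lam]
    split_ifs <;> omega

/-- sum over the residues of the column lengths -/
theorem sum_ceil {k : ℕ} (hk : 0 < k) (x : ℕ) : ∑ z ∈ range k, (x + (k - 1 - z)) / k = x := by
  induction x with
  | zero =>
    apply sum_eq_zero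
    intro z hz
    exact Nat.div_eq_of_lt (by omega)
  | succ x ih =>
    rw [sum_congr rfl (fun z hz => ceil_succ hk x z (mem_range.1 hz)), sum_add_distrib, ih,
      sum_ite_eq' (range k) (x % k), if_pos (mem_range.2 (Nat.mod_lt _ hk))]

theorem sum_clip (U V x : ℕ) : ∑ p ∈ range U, min (x - p * V) V = min x (U * V) := by
  induction U with
  | zero => simp
  | succ U ih =>
    rw [sum_range_succ, ih, Nat.succ_mul]
    omega

theorem ceil_add {k c r z : ℕ} (hk : 0 < k) (hz : z < k) (hr : r < k) :
    (k * c + r + (k - 1 - z)) / k = c + if z < r then 1 else 0 := by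
  have e3 : k * c + r + (k - 1 - z) = k * c + (r + k - 1 - z) := by omega
  rw [e3, Nat.mul_add_div hk]
  congr 1
  split_ifs with h
  · rw [Nat.div_eq_iff hk]; omega
  · rw [Nat.div_eq_of_lt]; omega

/-- one step of the recursion: first digit -/
theorem H_step {l : ℕ} {ls : List ℕ} (h : Pos ls) {q s c r : ℕ} (hq : q < l)
    (hs : s ≤ ls.prod) (hr : r < l) :
    H (l :: ls) (q * ls.prod + s) (l * c + r) =
      q * c + min q r + H ls s (c + if q < r then 1 else 0) := by
  have hl : 0 < l := by omega
  rw [H_cons hl]
  have e1 : ∀ z ∈ range l, H ls (q * ls.prod + s - z * ls.prod) ((l * c + r + (l - 1 - z)) / l) =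
      (if z < q then (c + if z < r then 1 else 0) else 0) +
        if z = q then H ls s (c + if q < r then 1 else 0) else 0 := by
    intro z hz
    rw [ceil_add hl (mem_range.1 hz) hr]
    rcases lt_trichotomy z q with h1 | h1 | h1
    · rw [if_pos h1, if_neg (show ¬ z = q by omega), add_zero]
      apply H_full h
      have h2 : (z + 1) * ls.prod ≤ q * ls.prod := Nat.mul_le_mul_right _ h1
      rw [Nat.succ_mul] at h2
      omega
    · subst h1
      rw [if_neg (lt_irrefl _), if_pos rfl, zero_add, Nat.add_sub_cancel_left]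
    · rw [if_neg (show ¬ z < q by omega), if_neg (show ¬ z = q by omega)]
      have h2 : (q + 1) * ls.prod ≤ z * ls.prod := Nat.mul_le_mul_right _ h1
      rw [Nat.succ_mul] at h2
      have e : q * ls.prod + s - z * ls.prod = 0 := by omega
      rw [e, H_zero_left]
  rw [sum_congr rfl e1, sum_add_distrib, sum_ite_eq' (range l) q, if_pos (mem_range.2 hq)]
  congr 1
  have e2 : ∀ m, m ≤ l → ∑ z ∈ range m,
      (if z < q then (c + if z < r then 1 else 0) else 0) = (min m q) * c + min (min m q) r := by
    intro m
    induction m with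
    | zero => simp
    | succ m ih =>
      intro hm
      rw [sum_range_succ, ih (by omega)]
      by_cases h1 : m < q
      · rw [if_pos h1, min_eq_left (by omega : m ≤ q), min_eq_left (by omega : m + 1 ≤ q),
          Nat.succ_mul]
        split_ifs <;> omega
      · rw [if_neg h1, min_eq_right (by omega : q ≤ m), min_eq_right (by omega : q ≤ m + 1)]
        omega
  rw [e2 l le_rfl, min_eq_right (by omega : q ≤ l)]

/-- subadditivity in the second argument -/
theorem H_subadd {ls : List ℕ} (h : Pos ls) (a b b' : ℕ) :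
    H ls a (b + b') ≤ H ls a b + H ls a b' := by
  induction ls generalizing a b b' with
  | nil =>
    rw [H_nil, H_nil, H_nil]
    split_ifs <;> omega
  | cons l ls ih =>
    rw [Pos.cons_iff] at h
    have hl := h.1
    have ih := ih h.2
    have hV := h.2.prod_pos
    by_cases ha : (l :: ls).prod ≤ a
    · rw [H_full (Pos.cons_iff.2 h) ha, H_full (Pos.cons_iff.2 h) ha,
        H_full (Pos.cons_iff.2 h) ha]
    · rw [List.prod_cons, not_le] at ha
      obtain ⟨q, s, hs, rfl⟩ : ∃ q s, s < ls.prod ∧ a = q * ls.prod + s :=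
        ⟨a / ls.prod, a % ls.prod, Nat.mod_lt _ hV, (Nat.div_add_mod' a _).symm⟩
      have hq : q < l := by
        by_contra hcon
        have := Nat.mul_le_mul_right ls.prod (not_lt.1 hcon)
        omega
      obtain ⟨c, r, hr, rfl⟩ : ∃ c r, r < l ∧ b = l * c + r :=
        ⟨b / l, b % l, Nat.mod_lt _ hl, (Nat.div_add_mod b l).symm⟩
      obtain ⟨c', r', hr', rfl⟩ : ∃ c r, r < l ∧ b' = l * c + r :=
        ⟨b' / l, b' % l, Nat.mod_lt _ hl, (Nat.div_add_mod b' l).symm⟩
      rw [H_step h.2 hq hs.le hr, H_step h.2 hq hs.le hr']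
      have m1 := fun x y (hxy : x ≤ y) => H_mono_right ls s hxy
      have m2 := H_lip_right ls s (c + c') 1
      by_cases hrr : r + r' < l
      · have e : l * c + r + (l * c' + r') = l * (c + c') + (r + r') := by ring
        rw [e, H_step h.2 hq hs.le hrr, Nat.mul_add]
        by_cases h1 : q < r
        · by_cases h2 : q < r'
          · rw [if_pos h1, if_pos h2, if_pos (by omega)]
            have i1 := ih s (c + 1) c'
            have i2 := m1 c' (c' + 1) (by omega)
            have e2 : c + 1 + c' = c + c' + 1 := by omega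
            rw [e2] at i1
            omega
          · rw [if_pos h1, if_neg h2, if_pos (by omega)]
            have i1 := ih s (c + 1) c'
            have e2 : c + 1 + c' = c + c' + 1 := by omega
            rw [e2] at i1
            simp only [add_zero]
            omega
        · by_cases h2 : q < r'
          · rw [if_neg h1, if_pos h2, if_pos (by omega)]
            have i1 := ih s c (c' + 1)
            rw [← add_assoc] at i1
            simp only [add_zero]
            omega
          · rw [if_neg h1, if_neg h2]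
            have i1 := ih s c c'
            split_ifs with h3
            · simp only [add_zero]
              omega
            · simp only [add_zero]
              omega
      · obtain ⟨d, hd⟩ := Nat.exists_eq_add_of_le (not_lt.1 hrr)
        have e : l * c + r + (l * c' + r') = l * (c + c' + 1) + d := by
          have : l * (c + c' + 1) = l * c + l * c' + l := by ring
          omega
        have hd' : d < l := by omega
        have e4 : q * (c + c' + 1) = q * c + q * c' + q := by ring
        rw [e, H_step h.2 hq hs.le hd', e4]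
        by_cases h3 : q < d
        · rw [if_pos h3, if_pos (by omega), if_pos (by omega)]
          have i1 := ih s (c + 1) (c' + 1)
          have e2 : c + 1 + (c' + 1) = c + c' + 1 + 1 := by omega
          rw [e2] at i1
          omega
        · rw [if_neg h3]
          simp only [add_zero]
          by_cases h1 : q < r
          · by_cases h2 : q < r'
            · rw [if_pos h1, if_pos h2]
              have i1 := ih s (c + 1) c'
              have i2 := m1 c' (c' + 1) (by omega)
              have e2 : c + 1 + c' = c + c' + 1 := by omega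
              rw [e2] at i1
              omega
            · rw [if_pos h1, if_neg h2]
              have i1 := ih s (c + 1) c'
              have e2 : c + 1 + c' = c + c' + 1 := by omega
              rw [e2] at i1
              simp only [add_zero]
              omega
          · by_cases h2 : q < r'
            · rw [if_neg h1, if_pos h2]
              have i1 := ih s c (c' + 1)
              rw [← add_assoc] at i1
              simp only [add_zero]
              omega
            · rw [if_neg h1, if_neg h2]
              have i1 := ih s c c'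
              simp only [add_zero]
              omega

/-- the row lemma -/
theorem H_row {l : ℕ} {ls : List ℕ} (h : Pos ls) (hl : 0 < l) (q : ℕ) {b : ℕ}
    (hb : b ≤ ls.prod * l) :
    ∃ η ≤ l, ∀ e ≤ l, H (ls ++ [l]) (l * q + e) b = H (ls ++ [l]) (l * q) b + min e η := by
  have hU := h.prod_pos
  have hd : ∀ ρ, (b + (ls.prod - 1 - ρ)) / ls.prod ≤ l := by
    intro ρ
    rw [Nat.div_le_iff_le_mul_add_pred hU]
    omega
  have e0 : ∀ a, H (ls ++ [l]) a b = ∑ ρ ∈ range ls.prod,
      min (a - lam ls ρ * l) ((b + (ls.prod - 1 - ρ)) / ls.prod) := by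
    intro a
    rw [H_append h]
    apply sum_congr rfl
    intro ρ _
    rw [List.prod_cons, List.prod_nil, mul_one, H_one _ (hd ρ)]
  have e1 : ∀ e ≤ l, ∀ ρ ∈ range ls.prod,
      min (l * q + e - lam ls ρ * l) ((b + (ls.prod - 1 - ρ)) / ls.prod) =
      min (l * q - lam ls ρ * l) ((b + (ls.prod - 1 - ρ)) / ls.prod) +
        if lam ls ρ = q then min e ((b + (ls.prod - 1 - ρ)) / ls.prod) else 0 := by
    intro e he ρ _
    have hdρ := hd ρ
    generalize (b + (ls.prod - 1 - ρ)) / ls.prod = d at hdρ
    rcases lt_trichotomy (lam ls ρ) q with h1 | h1 | h1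
    · rw [if_neg (by omega)]
      have h2 : (lam ls ρ + 1) * l ≤ q * l := Nat.mul_le_mul_right _ h1
      rw [Nat.succ_mul, mul_comm q l] at h2
      omega
    · rw [if_pos h1, h1, mul_comm q l]
      simp
    · rw [if_neg (by omega)]
      have h2 : (q + 1) * l ≤ lam ls ρ * l := Nat.mul_le_mul_right _ h1
      rw [Nat.succ_mul, mul_comm q l] at h2
      omega
  by_cases hq : ∃ ρ < ls.prod, lam ls ρ = q
  · obtain ⟨ρ, hρ, rfl⟩ := hq
    refine ⟨(b + (ls.prod - 1 - ρ)) / ls.prod, hd ρ, fun e he => ?_⟩
    rw [e0, e0, sum_congr rfl (e1 e he), sum_add_distrib]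
    congr 1
    have e2 : ∀ ρ' ∈ range ls.prod,
        (if lam ls ρ' = lam ls ρ then min e ((b + (ls.prod - 1 - ρ')) / ls.prod) else 0) =
        if ρ' = ρ then min e ((b + (ls.prod - 1 - ρ')) / ls.prod) else 0 := by
      intro ρ' hρ'
      by_cases h1 : ρ' = ρ
      · rw [if_pos h1, if_pos (by rw [h1])]
      · rw [if_neg h1, if_neg (fun h2 => h1 (lam_inj h (mem_range.1 hρ') hρ h2))]
    rw [sum_congr rfl e2, sum_ite_eq' (range ls.prod) ρ, if_pos (mem_range.2 hρ)]
  · refine ⟨0, Nat.zero_le _, fun e he => ?_⟩
    rw [e0, e0, sum_congr rfl (e1 e he), sum_add_distrib]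
    congr 1
    rw [Nat.min_zero]
    apply sum_eq_zero
    intro ρ hρ
    rw [if_neg (fun h1 => hq ⟨ρ, mem_range.1 hρ, h1⟩)]

end DKWF
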