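import Pool.Agent.Lib.MP_f05b2f_co.F.One

/-!
The moves `O1` (all sections over a block of first digits good) and its mirror image, a criterion
for a two-dimensional section to be good for `k` first, and `FSL 2 ls` for every list `ls`.
-/

namespace DKWF

open Finset

/-- the statement for one pair of sequences -/
def FS (k : ℕ) (ls : List ℕ) (a b : ℕ → ℕ) : Prop :=
  ∃ l1 l2, l1 ++ l2 = ls ∧
    H (l1 ++ k :: l2) (∑ z ∈ range k, a z) (∑ z ∈ range k, b z) ≤
      ∑ z ∈ range k, H ls (a z) (b z)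

theorem FS.reverse {k : ℕ} (hk : 0 < k) {ls : List ℕ} (h : Pos ls) {a b : ℕ → ℕ}
    (ha' : ∀ z, a z ≤ ls.prod) (hb' : ∀ z, b z ≤ ls.prod) (F : FS k ls.reverse b a) :
    FS k ls a b := by
  obtain ⟨l1, l2, hl, hF⟩ := F
  have hl' : l2.reverse ++ l1.reverse = ls := by
    rw [← List.reverse_append, hl, List.reverse_reverse]
  refine ⟨l2.reverse, l1.reverse, hl', ?_⟩
  have hpos : Pos (l1 ++ k :: l2) := Pos.insert hk (hl ▸ h.reverse)
  have hp : (l1 ++ k :: l2).prod = k * ls.prod := by rw [prod_insert, hl, prod_reverse]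
  rw [H_comm hpos (by rw [hp]; exact sum_le_mul (fun z _ => hb' z))
    (by rw [hp]; exact sum_le_mul (fun z _ => ha' z))] at hF
  have e1 : (l1 ++ k :: l2).reverse = l2.reverse ++ k :: l1.reverse := by simp
  rw [e1] at hF
  refine hF.trans (le_of_eq ?_)
  apply sum_congr rfl
  intro z _
  exact (H_comm h (ha' z) (hb' z)).symm

/-- move `O1`: all the sections over the first block `l1` of digits are good for `k` first -/
theorem FS.of_good {k : ℕ} (hk : 0 < k) {l : ℕ} (hl : 0 < l) {l1 l2 : List ℕ} (h1 : Pos l1)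
    (h2 : Pos l2) (F : FSL k (l1 ++ l2)) {a b : ℕ → ℕ}
    (ha' : ∀ z, a z ≤ (l1 ++ (l2 ++ [l])).prod) (hb' : ∀ z, b z ≤ (l1 ++ (l2 ++ [l])).prod)
    (hg : ∀ ρ < l1.prod, H (k :: (l2 ++ [l])) (secA (l2 ++ [l]).prod k a (lam l1 ρ))
        (secB l1.prod k b ρ) ≤
      ∑ z ∈ range k, H (l2 ++ [l]) (a z - lam l1 ρ * (l2 ++ [l]).prod)
        ((b z + (l1.prod - 1 - ρ)) / l1.prod)) :
    FS k (l1 ++ (l2 ++ [l])) a b := by
  obtain ⟨m1, m2, hm, hS⟩ := S_ge hk hl h1 h2 F ha' hb'
  refine ⟨m1, m2 ++ [l], ?_, hS.trans (S_le h1 hg)⟩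
  rw [← List.append_assoc, hm, List.append_assoc]

/-- a flat sequence has the smallest initial sums -/
theorem flat {k : ℕ} (hk : 0 < k) {b : ℕ → ℕ} (hb : Antitone b) {y : ℕ} (hy : y ≤ k) :
    H [k] y (∑ z ∈ range k, b z) ≤ ∑ z ∈ range y, b z := by
  obtain ⟨B, hB⟩ : ∃ B, ∑ z ∈ range k, b z = B := ⟨_, rfl⟩
  rw [hB]
  obtain ⟨c, r, hr, rfl⟩ : ∃ c r, r < k ∧ B = c * k + r :=
    ⟨B / k, B % k, Nat.mod_lt _ hk, (Nat.div_add_mod' B k).symm⟩
  have hpos : Pos [k] := by simp [Pos, hk]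
  have h1 := H_period hpos (a := y) (by simpa using hy) c r
  simp only [List.prod_cons, List.prod_nil, mul_one] at h1
  rw [h1, H_one _ hr.le]
  rcases Nat.eq_zero_or_pos y with rfl | hy0
  · simp
  rcases Nat.lt_or_ge c (b (y - 1)) with h2 | h2
  · have h3 : ∑ z ∈ range y, (c + 1) ≤ ∑ z ∈ range y, b z := by
      apply sum_le_sum
      intro z hz
      have := hb (show z ≤ y - 1 by have := mem_range.1 hz; omega)
      omega
    rw [sum_const, card_range, smul_eq_mul, Nat.mul_succ, mul_comm] at h3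
    omega
  · obtain ⟨d, rfl⟩ := Nat.exists_eq_add_of_le hy
    rw [sum_range_add] at hB
    have h3 : ∑ z ∈ range d, b (y + z) ≤ d * c := by
      apply sum_le_mul
      intro z _
      exact (hb (show y - 1 ≤ y + z by omega)).trans h2
    have h4 : c * (y + d) = c * y + d * c := by ring
    omega

/-- a section without a crossing of the wrong kind is good for `k` first -/
theorem good_of_no_cross {k l : ℕ} (hk : 0 < k) (hl : 0 < l) {a b : ℕ → ℕ}
    (hb : Antitone b) (ha' : ∀ z, a z ≤ l) (hb' : ∀ z, b z ≤ l)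
    (hx : ∀ z1 z2, z1 < z2 → z2 < k → a z1 < b z1 → b z2 < a z2 → False) :
    H [k, l] (∑ z ∈ range k, a z) (∑ z ∈ range k, b z) ≤ ∑ z ∈ range k, min (a z) (b z) := by
  obtain ⟨y, hy, h1, h2⟩ : ∃ y ≤ k, (∀ z < y, b z ≤ a z) ∧ (∀ z, y ≤ z → z < k → a z ≤ b z) := by
    by_cases h : ∃ z, z < k ∧ a z < b z
    · classical
      refine ⟨Nat.find h, (Nat.find_spec h).1.le, ?_, ?_⟩
      · intro z hz
        have h3 := Nat.find_min h hz
        have h4 := (Nat.find_spec h).1
        by_contra hcon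
        exact h3 ⟨by omega, not_le.1 hcon⟩
      · intro z hz hzk
        rcases Nat.eq_or_lt_of_le hz with h3 | h3
        · rw [← h3]; exact (Nat.find_spec h).2.le
        · by_contra hcon
          exact hx _ z h3 hzk (Nat.find_spec h).2 (not_le.1 hcon)
    · refine ⟨k, le_rfl, ?_, fun z h3 h4 => by omega⟩
      intro z hz
      by_contra hcon
      exact h ⟨z, hz, not_le.1 hcon⟩
  obtain ⟨d, rfl⟩ := Nat.exists_eq_add_of_le hy
  have hpos : Pos [y + d, l] := by simp [Pos, hk, hl]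
  have hprod : [y + d, l].prod = (y + d) * l := by simp
  have e1 : ∑ z ∈ range (y + d), min (a z) (b z) =
      ∑ z ∈ range y, b z + ∑ z ∈ range d, a (y + z) := by
    rw [sum_range_add]
    congr 1
    · exact sum_congr rfl (fun z hz => min_eq_right (h1 z (mem_range.1 hz)))
    · exact sum_congr rfl (fun z hz => min_eq_left (h2 (y + z) (by omega)
        (by have := mem_range.1 hz; omega)))
  have e2 : ∑ z ∈ range (y + d), a z ≤ l * y + ∑ z ∈ range d, a (y + z) := by
    rw [sum_range_add]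
    have : ∑ z ∈ range y, a z ≤ y * l := sum_le_mul (fun z _ => ha' z)
    rw [mul_comm] at this
    omega
  rw [e1]
  have hsb : ∑ z ∈ range (y + d), b z ≤ [y + d, l].prod := by
    rw [hprod]
    exact sum_le_mul (fun z _ => hb' z)
  calc H [y + d, l] (∑ z ∈ range (y + d), a z) (∑ z ∈ range (y + d), b z)
      ≤ H [y + d, l] (l * y + ∑ z ∈ range d, a (y + z)) (∑ z ∈ range (y + d), b z) :=
        H_mono_left _ e2 _
    _ ≤ H [y + d, l] (l * y) (∑ z ∈ range (y + d), b z) + ∑ z ∈ range d, a (y + z) :=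
        H_lip_left hpos _ _ hsb
    _ = H [y + d] y (∑ z ∈ range (y + d), b z) + ∑ z ∈ range d, a (y + z) := by
        have : [y + d, l] = [y + d] ++ [l] := rfl
        rw [this, H_snoc hl]
    _ ≤ _ := Nat.add_le_add_right (flat hk hb hy) _

/-- `O1` for the last digit, with the crossing criterion -/
theorem FS.of_rows {k : ℕ} (hk : 0 < k) {l : ℕ} (hl : 0 < l) {l1 : List ℕ} (h1 : Pos l1)
    (F : FSL k l1) {a b : ℕ → ℕ} (hb : Antitone b)
    (ha' : ∀ z, a z ≤ (l1 ++ [l]).prod) (hb' : ∀ z, b z ≤ (l1 ++ [l]).prod)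
    (hx : ∀ ρ < l1.prod, ∀ z1 z2, z1 < z2 → z2 < k →
      min (a z1 - lam l1 ρ * l) l < (b z1 + (l1.prod - 1 - ρ)) / l1.prod →
      (b z2 + (l1.prod - 1 - ρ)) / l1.prod < min (a z2 - lam l1 ρ * l) l → False) :
    FS k (l1 ++ [l]) a b := by
  have hU := h1.prod_pos
  have F' : FSL k (l1 ++ []) := by rw [List.append_nil]; exact F
  have ha'' : ∀ z, a z ≤ (l1 ++ ([] ++ [l])).prod := ha'
  have hb'' : ∀ z, b z ≤ (l1 ++ ([] ++ [l])).prod := hb'
  have hd : ∀ z ρ, (b z + (l1.prod - 1 - ρ)) / l1.prod ≤ l := by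
    intro z ρ
    rw [Nat.div_le_iff_le_mul_add_pred hU]
    have := hb' z
    simp only [List.prod_append, List.prod_cons, List.prod_nil, mul_one] at this
    omega
  refine FS.of_good (l2 := []) hk hl h1 Pos.nil F' ha'' hb'' ?_
  intro ρ hρ
  simp only [List.nil_append, List.prod_cons, List.prod_nil, mul_one]
  have e1 : ∀ z ∈ range k, H [l] (a z - lam l1 ρ * l) ((b z + (l1.prod - 1 - ρ)) / l1.prod) =
      min (min (a z - lam l1 ρ * l) l) ((b z + (l1.prod - 1 - ρ)) / l1.prod) := by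
    intro z _
    have := hd z ρ
    rw [H_one _ this]
    omega
  rw [sum_congr rfl e1]
  exact good_of_no_cross (a := fun z => min (a z - lam l1 ρ * l) l)
    (b := fun z => (b z + (l1.prod - 1 - ρ)) / l1.prod) hk hl
    (fun z z' hz => Nat.div_le_div_right (by have := hb hz; omega))
    (fun z => min_le_right _ _) (fun z => hd z ρ) (hx ρ hρ)

theorem ceil_gap {U x y s : ℕ} (hU : 0 < U) (h : (x + s) / U + 2 ≤ (y + s) / U) : x + U < y := by
  have h1 := Nat.div_add_mod (x + s) U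
  have h2 := Nat.mod_lt (x + s) hU
  have h3 := Nat.div_mul_le_self (y + s) U
  have h4 : ((x + s) / U + 2) * U ≤ (y + s) / U * U := Nat.mul_le_mul_right _ h
  have h5 : ((x + s) / U + 2) * U = U * ((x + s) / U) + 2 * U := by ring
  omega

/-- if `O1` for the last digit fails, two values of `a` are in one open row, and the corresponding
values of `b` differ by more than a block -/
theorem rows_or {k : ℕ} (hk : 0 < k) {l : ℕ} (hl : 0 < l) {l1 : List ℕ} (h1 : Pos l1)
    (F : FSL k l1) {a b : ℕ → ℕ} (ha : Antitone a) (hb : Antitone b)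
    (ha' : ∀ z, a z ≤ (l1 ++ [l]).prod) (hb' : ∀ z, b z ≤ (l1 ++ [l]).prod) :
    FS k (l1 ++ [l]) a b ∨ ∃ z1 z2, z1 < z2 ∧ z2 < k ∧ a z1 < a z2 + l ∧
      b z2 + l1.prod < b z1 := by
  have hU := h1.prod_pos
  by_cases hx : ∀ ρ < l1.prod, ∀ z1 z2, z1 < z2 → z2 < k →
      min (a z1 - lam l1 ρ * l) l < (b z1 + (l1.prod - 1 - ρ)) / l1.prod →
      (b z2 + (l1.prod - 1 - ρ)) / l1.prod < min (a z2 - lam l1 ρ * l) l → False
  · left
    exact FS.of_rows hk hl h1 F hb ha' hb' hx
  · right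
    push Not at hx
    obtain ⟨ρ, hρ, z1, z2, hz, hz2, hc1, hc2⟩ := hx
    have hd : ∀ z ρ, (b z + (l1.prod - 1 - ρ)) / l1.prod ≤ l := by
      intro z ρ
      rw [Nat.div_le_iff_le_mul_add_pred hU]
      have := hb' z
      simp only [List.prod_append, List.prod_cons, List.prod_nil, mul_one] at this
      omega
    have h3 := hd z1 ρ
    have h4 := ha hz.le
    have h5 : (b z2 + (l1.prod - 1 - ρ)) / l1.prod + 2 ≤ (b z1 + (l1.prod - 1 - ρ)) / l1.prod ∧
        a z1 < a z2 + l := by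
      generalize (b z2 + (l1.prod - 1 - ρ)) / l1.prod = j at *
      generalize (b z1 + (l1.prod - 1 - ρ)) / l1.prod = j' at *
      omega
    exact ⟨z1, z2, hz, hz2, h5.2, ceil_gap hU h5.1⟩

/-- the two moves for the last and the first digit -/
theorem rows_or_cols {k : ℕ} (hk : 0 < k) {ls : List ℕ} (h : Pos ls) {l1 l3 : List ℕ} {l l' : ℕ}
    (e1 : ls = l1 ++ [l]) (e3 : ls = l' :: l3) (F1 : FSL k l1) (F3 : FSL k l3) {a b : ℕ → ℕ}
    (ha : Antitone a) (hb : Antitone b) (ha' : ∀ z, a z ≤ ls.prod) (hb' : ∀ z, b z ≤ ls.prod) :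
    FS k ls a b ∨ ((∃ z1 z2, z1 < z2 ∧ z2 < k ∧ a z1 < a z2 + l ∧ b z2 + l1.prod < b z1) ∧
      (∃ z1 z2, z1 < z2 ∧ z2 < k ∧ b z1 < b z2 + l' ∧ a z2 + l3.prod < a z1)) := by
  have p1 : Pos (l1 ++ [l]) := e1 ▸ h
  have p3 : Pos (l' :: l3) := e3 ▸ h
  rw [Pos.append_iff] at p1
  rw [Pos.cons_iff] at p3
  have hl : 0 < l := p1.2 l (by simp)
  have c1 : FS k ls a b ∨ (∃ z1 z2, z1 < z2 ∧ z2 < k ∧ a z1 < a z2 + l ∧
      b z2 + l1.prod < b z1) := by
    have := rows_or hk hl p1.1 F1 ha hb (by rw [← e1]; exact ha') (by rw [← e1]; exact hb')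
    rw [← e1] at this
    exact this
  have c3 : FS k ls a b ∨ (∃ z1 z2, z1 < z2 ∧ z2 < k ∧ b z1 < b z2 + l' ∧
      a z2 + l3.prod < a z1) := by
    have e4 : ls.reverse = l3.reverse ++ [l'] := by rw [e3]; simp
    have := rows_or hk p3.1 p3.2.reverse (F3.reverse hk p3.2) hb ha
      (by rw [← e4, prod_reverse]; exact hb') (by rw [← e4, prod_reverse]; exact ha')
    rw [← e4, prod_reverse] at this
    rcases this with h1 | h1
    · exact Or.inl (h1.reverse hk h ha' hb')
    · exact Or.inr h1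
  rcases c1 with c1 | c1
  · exact Or.inl c1
  rcases c3 with c3 | c3
  · exact Or.inl c3
  exact Or.inr ⟨c1, c3⟩

/-- the first slice lemma for `k = 2` and all lists -/
theorem FSL_two : ∀ (r : ℕ) (ls : List ℕ), ls.length = r → Pos ls → FSL 2 ls := by
  intro r
  induction r with
  | zero =>
    intro ls hls _
    rw [List.length_eq_zero_iff] at hls
    subst hls
    exact FSL_nil 2
  | succ r ih =>
    intro ls hls h
    rcases Nat.eq_zero_or_pos r with rfl | hr
    · obtain ⟨l, rfl⟩ := List.length_eq_one_iff.1 hls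
      exact FSL_one two_pos (h l (by simp))
    · obtain ⟨l', l3, e3⟩ : ∃ l' l3, ls = l' :: l3 := List.exists_cons_of_length_eq_add_one hls
      have hl3 : l3.length = r := by rw [e3] at hls; simpa using hls
      obtain ⟨l4, l, e4⟩ : ∃ l4 l, l3 = l4 ++ [l] := by
        rcases List.eq_nil_or_concat l3 with h0 | ⟨l4, l, h0⟩
        · rw [h0] at hl3; simp at hl3; omega
        · exact ⟨l4, l, by rw [h0, List.concat_eq_append]⟩
      have e1 : ls = (l' :: l4) ++ [l] := by rw [e3, e4]; simp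
      have hlen : (l' :: l4).length = r := by rw [e4] at hl3; simpa using hl3
      have p3 : Pos (l' :: l3) := e3 ▸ h
      have p1 : Pos ((l' :: l4) ++ [l]) := e1 ▸ h
      rw [Pos.cons_iff] at p3
      rw [Pos.append_iff] at p1
      intro a b ha hb ha' hb'
      rcases rows_or_cols two_pos h e1 e3 (ih _ hlen p1.1) (ih _ hl3 p3.2) ha hb ha' hb' with
        h1 | ⟨⟨z1, z2, hz, hz2, h1, _⟩, ⟨z3, z4, hz', hz4, _, h2⟩⟩
      · exact h1
      · exfalso
        have q1 : z1 = 0 := by omega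
        have q2 : z2 = 1 := by omega
        have q3 : z3 = 0 := by omega
        have q4 : z4 = 1 := by omega
        subst q1 q2 q3 q4
        have h3 : l3.prod = l4.prod * l := by rw [e4]; simp
        have h4 : 0 < l4.prod := by
          rw [Pos.cons_iff] at p1
          exact p1.1.2.prod_pos
        have h5 : l ≤ l4.prod * l := Nat.le_mul_of_pos_left l h4
        omega

end DKWF
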