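import Mathlib

/-!
The two orders of a product of chains, arithmetically.  For a list `ls` of chain lengths (all
positive), the elements of the box are numbered `t < ls.prod` in the second order (first coordinate
least significant), and `lam ls t` is the number of the same element in the first order (first
coordinate most significant).  `H ls a b` is the number of elements among the first `b` of the
second order which are among the first `a` of the first order; it is defined for all `b`, with
`t` read modulo `ls.prod`.
-/

namespace DKWF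

open Finset

/-- all chain lengths are positive -/
def Pos (ls : List ℕ) : Prop := ∀ l ∈ ls, 0 < l

/-- the position in the first order of element number `t` of the second order -/
def lam : List ℕ → ℕ → ℕ
  | [], _ => 0
  | (l :: ls), t => (t % l) * ls.prod + lam ls (t / l)

/-- the number of common elements of the first `a` (first order) and first `b` (second order) -/
def H (ls : List ℕ) (a b : ℕ) : ℕ := ∑ t ∈ range b, if lam ls t < a then 1 else 0

theorem Pos.nil : Pos [] := by simp [Pos]

theorem Pos.cons_iff {l : ℕ} {ls : List ℕ} : Pos (l :: ls) ↔ 0 < l ∧ Pos ls := by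
  simp [Pos]

theorem Pos.append_iff {l1 l2 : List ℕ} : Pos (l1 ++ l2) ↔ Pos l1 ∧ Pos l2 := by
  simp only [Pos, List.mem_append]
  exact ⟨fun h => ⟨fun l hl => h l (Or.inl hl), fun l hl => h l (Or.inr hl)⟩,
    fun h l hl => hl.elim (h.1 l) (h.2 l)⟩

theorem Pos.reverse {ls : List ℕ} (h : Pos ls) : Pos ls.reverse := fun l hl =>
  h l (List.mem_reverse.1 hl)

theorem Pos.prod_pos {ls : List ℕ} (h : Pos ls) : 0 < ls.prod := by
  induction ls with
  | nil => simp
  | cons l ls ih =>
    rw [Pos.cons_iff] at h
    rw [List.prod_cons]
    exact Nat.mul_pos h.1 (ih h.2)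

theorem prod_reverse (ls : List ℕ) : ls.reverse.prod = ls.prod := List.prod_reverse ls

theorem lam_lt {ls : List ℕ} (h : Pos ls) (t : ℕ) : lam ls t < ls.prod := by
  induction ls generalizing t with
  | nil => simp [lam]
  | cons l ls ih =>
    rw [Pos.cons_iff] at h
    rw [lam, List.prod_cons]
    have h1 := ih h.2 (t / l)
    have h2 := Nat.mod_lt t h.1
    calc (t % l) * ls.prod + lam ls (t / l) < (t % l) * ls.prod + ls.prod := by omega
      _ = (t % l + 1) * ls.prod := by ring
      _ ≤ l * ls.prod := Nat.mul_le_mul_right _ h2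

theorem lam_add {ls : List ℕ} (h : Pos ls) (t c : ℕ) : lam ls (t + ls.prod * c) = lam ls t := by
  induction ls generalizing t with
  | nil => simp [lam]
  | cons l ls ih =>
    rw [Pos.cons_iff] at h
    rw [lam, lam, List.prod_cons]
    have e1 : t + l * ls.prod * c = t + l * (ls.prod * c) := by ring
    rw [e1, Nat.add_mul_mod_self_left, Nat.add_mul_div_left _ _ h.1, ih h.2]

theorem lam_append {l1 l2 : List ℕ} (t : ℕ) :
    lam (l1 ++ l2) t = lam l1 t * l2.prod + lam l2 (t / l1.prod) := by
  induction l1 generalizing t with
  | nil => simp [lam]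
  | cons l l1 ih =>
    rw [List.cons_append, lam, lam, ih, List.prod_append, List.prod_cons, Nat.div_div_eq_div_mul]
    ring

theorem lam_singleton {l : ℕ} (t : ℕ) : lam [l] t = t % l := by simp [lam]

theorem lam_reverse {ls : List ℕ} (h : Pos ls) {t : ℕ} (ht : t < ls.prod) :
    lam ls.reverse (lam ls t) = t := by
  induction ls generalizing t with
  | nil =>
    simp only [List.prod_nil] at ht
    simp only [List.reverse_nil, lam]
    omega
  | cons l ls ih =>
    rw [Pos.cons_iff] at h
    rw [List.prod_cons] at ht
    rw [List.reverse_cons, lam_append, lam_singleton]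
    have h1 : lam (l :: ls) t = lam ls (t / l) + ls.reverse.prod * (t % l) := by
      rw [lam, prod_reverse]; ring
    have h2 : t / l < ls.prod := Nat.div_lt_of_lt_mul ht
    have h3 := lam_lt h.2 (t / l)
    have h4 := h.2.prod_pos
    rw [h1, lam_add h.2.reverse, ih h.2 h2, prod_reverse, Nat.add_mul_div_left _ _ h4,
      Nat.div_eq_of_lt h3, zero_add, Nat.mod_mod]
    simp only [List.prod_cons, List.prod_nil, mul_one]
    have := Nat.div_add_mod t l
    rw [mul_comm] at this
    exact this

theorem lam_reverse' {ls : List ℕ} (h : Pos ls) {t : ℕ} (ht : t < ls.prod) :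
    lam ls (lam ls.reverse t) = t := by
  have := lam_reverse h.reverse (t := t) (by rw [prod_reverse]; exact ht)
  rwa [List.reverse_reverse] at this

theorem lam_inj {ls : List ℕ} (h : Pos ls) {s t : ℕ} (hs : s < ls.prod) (ht : t < ls.prod)
    (e : lam ls s = lam ls t) : s = t := by
  rw [← lam_reverse h hs, ← lam_reverse h ht, e]

/-- complement of all digits -/
theorem lam_compl {ls : List ℕ} (h : Pos ls) {c t : ℕ} (ht : t < c * ls.prod) :
    lam ls (c * ls.prod - 1 - t) + lam ls t + 1 = ls.prod := by
  induction ls generalizing c t with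
  | nil => simp [lam]
  | cons l ls ih =>
    rw [Pos.cons_iff] at h
    rw [List.prod_cons] at ht ⊢
    have hl := h.1
    obtain ⟨q, x, hx, rfl⟩ : ∃ q x, x < l ∧ t = l * q + x :=
      ⟨t / l, t % l, Nat.mod_lt _ hl, (Nat.div_add_mod t l).symm⟩
    have hq : q < c * ls.prod := by
      by_contra hcon
      have h1 : l * (c * ls.prod) ≤ l * q := Nat.mul_le_mul_left _ (not_lt.1 hcon)
      have h2 : l * (c * ls.prod) = c * (l * ls.prod) := by ring
      omega
    have e1 : c * (l * ls.prod) - 1 - (l * q + x) = l * (c * ls.prod - 1 - q) + (l - 1 - x) := by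
      have h2 : c * (l * ls.prod) = l * (c * ls.prod) := by ring
      obtain ⟨d, hd⟩ := Nat.exists_eq_add_of_lt hq
      have h3 : c * ls.prod - 1 - q = d := by omega
      rw [h2, h3, hd]
      have h4 : l * (q + d + 1) = l * q + l * d + l := by ring
      omega
    rw [lam, lam, e1]
    have d1 : (l * (c * ls.prod - 1 - q) + (l - 1 - x)) % l = l - 1 - x := by
      rw [Nat.mul_add_mod]; exact Nat.mod_eq_of_lt (by omega)
    have d2 : (l * (c * ls.prod - 1 - q) + (l - 1 - x)) / l = c * ls.prod - 1 - q := by
      rw [Nat.mul_add_div hl, Nat.div_eq_of_lt (by omega), add_zero]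
    have d3 : (l * q + x) % l = x := by
      rw [Nat.mul_add_mod]; exact Nat.mod_eq_of_lt hx
    have d4 : (l * q + x) / l = q := by
      rw [Nat.mul_add_div hl, Nat.div_eq_of_lt hx, add_zero]
    rw [d1, d2, d3, d4]
    have h5 := ih h.2 hq
    obtain ⟨y, hy⟩ := Nat.exists_eq_add_of_lt hx
    have h6 : l - 1 - x = y := by omega
    rw [h6, hy]
    have h7 : (x + y + 1) * ls.prod = y * ls.prod + x * ls.prod + ls.prod := by ring
    rw [h7]
    omega

end DKWF
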