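import Pool.Agent.Lib.MP_f05b2f_co.F.Sec
import Pool.Agent.Lib.MP_f05b2f_co.Seq

/-!
The base cases: no digit, and one digit (two chains), of `FSL`.
-/

namespace DKWF

open Finset

theorem FSL_nil (k : ℕ) : FSL k [] := by
  intro a b ha hb ha' hb'
  simp only [List.prod_nil] at ha' hb'
  refine ⟨[], [], rfl, ?_⟩
  have hsb : ∑ z ∈ range k, b z ≤ k := by
    have := sum_le_mul (k := k) (fun z _ => hb' z)
    omega
  rw [List.nil_append, H_one _ hsb]
  by_cases h : ∃ y, b y < a y
  · obtain ⟨y, hy⟩ := h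
    refine (min_le_right _ _).trans (le_of_eq ?_)
    apply sum_congr rfl
    intro z _
    rw [H_nil]
    rcases le_total z y with h1 | h1
    · have h2 := ha h1
      rw [if_pos (by omega)]
    · have h2 := hb h1
      have h3 := ha' y
      have h4 : b z = 0 := by omega
      rw [h4]
      simp
  · push Not at h
    refine (min_le_left _ _).trans (sum_le_sum ?_)
    intro z _
    have h1 := h z
    have h2 := ha' z
    rw [H_nil]
    split_ifs <;> omega

theorem H_node {W V p q : ℕ} (hW : 0 < W) (hV : 0 < V) (hp : p ≤ W) :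
    H [W, V] (p * V) (q * W) = p * q := by
  have e : [W, V] = [W] ++ [V] := rfl
  have hW' : Pos [W] := by simp [Pos, hW]
  have h1 := H_period hW' (a := p) (by simpa using hp) q 0
  simp only [List.prod_cons, List.prod_nil, mul_one, add_zero, H_zero_right] at h1
  rw [e, mul_comm p V, H_snoc hV, h1, mul_comm]

theorem H_node_le {W V p q A B D : ℕ} (hW : 0 < W) (hV : 0 < V) (hp : p ≤ W) (hq : q ≤ V)
    (hB : B ≤ W * V) (h1 : p * q ≤ D) (h2 : p * q + A ≤ D + p * V)
    (h3 : p * q + B ≤ D + q * W) (h4 : p * q + A + B ≤ D + p * V + q * W) :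
    H [W, V] A B ≤ D := by
  have hpos : Pos [W, V] := by simp [Pos, hW, hV]
  have hprod : [W, V].prod = W * V := by simp
  have hqW : q * W ≤ W * V := by rw [mul_comm]; exact Nat.mul_le_mul_left _ hq
  have s1 : H [W, V] A B ≤ H [W, V] (p * V + (A - p * V)) (q * W + (B - q * W)) :=
    (H_mono_left _ (by omega) _).trans (H_mono_right _ _ (by omega))
  have s2 := H_lip_left hpos (p * V) (A - p * V) (b := q * W + (B - q * W))
    (by rw [hprod]; omega)
  have s3 := H_lip_right [W, V] (p * V) (q * W) (B - q * W)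
  rw [H_node hW hV hp] at s3
  omega

theorem FSL_one {k l : ℕ} (hk : 0 < k) (hl : 0 < l) : FSL k [l] := by
  intro a b ha hb ha' hb'
  simp only [List.prod_cons, List.prod_nil, mul_one] at ha' hb'
  have h := DKWTwo.two_dim k l (fun j => (a j : ℤ)) (fun j => (b j : ℤ))
    (by positivity)
    (fun j _ => ⟨by positivity, by exact_mod_cast ha' j⟩)
    (fun j _ => ⟨by positivity, by exact_mod_cast hb' j⟩)
    (fun i j hij _ => by exact_mod_cast ha hij)
    (fun i j hij _ => by exact_mod_cast hb hij)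
  have eD : ∑ z ∈ range k, H [l] (a z) (b z) = ∑ z ∈ range k, min (a z) (b z) :=
    sum_congr rfl (fun z _ => H_one _ (hb' z))
  rw [eD]
  have hsB : ∑ z ∈ range k, b z ≤ k * l := sum_le_mul (fun z _ => hb' z)
  obtain ⟨A, hA⟩ : ∃ A, ∑ z ∈ range k, a z = A := ⟨_, rfl⟩
  obtain ⟨B, hB⟩ : ∃ B, ∑ z ∈ range k, b z = B := ⟨_, rfl⟩
  obtain ⟨D, hD⟩ : ∃ D, ∑ z ∈ range k, min (a z) (b z) = D := ⟨_, rfl⟩
  have eM : ∑ z ∈ range k, max (a z) (b z) + D = A + B := by
    rw [← hA, ← hB, ← hD, ← sum_add_distrib, ← sum_add_distrib]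
    apply sum_congr rfl
    intro z _
    omega
  obtain ⟨M, hM⟩ : ∃ M, ∑ z ∈ range k, max (a z) (b z) = M := ⟨_, rfl⟩
  rw [hM] at eM
  rw [hA, hB, hD]
  rw [hB] at hsB
  have zA : ∑ j ∈ range k, (a j : ℤ) = A := by exact_mod_cast hA
  have zB : ∑ j ∈ range k, (b j : ℤ) = B := by exact_mod_cast hB
  have zD : ∑ j ∈ range k, min (a j : ℤ) (b j) = D := by exact_mod_cast hD
  have zM : ∑ j ∈ range k, max (a j : ℤ) (b j) = M := by exact_mod_cast hM
  rw [sum_sub_distrib, sum_sub_distrib, sum_sub_distrib, zA, zB, zD, zM, sum_const, card_range,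
    nsmul_eq_mul] at h
  have eM' : (M : ℤ) + D = A + B := by exact_mod_cast eM
  rcases h with ⟨p, q, hp0, hpW, hq0, hqH, h1, h2, h3, h4⟩ |
    ⟨p, q, hp0, hpW, hq0, hqH, h1, h2, h3, h4⟩
  · obtain ⟨p', rfl⟩ := Int.eq_ofNat_of_zero_le hp0
    obtain ⟨q', rfl⟩ := Int.eq_ofNat_of_zero_le hq0
    refine ⟨[], [l], rfl, ?_⟩
    rw [List.nil_append]
    refine H_node_le (p := p') (q := q') hk hl (by exact_mod_cast hpW) (by exact_mod_cast hqH)
      hsB (by exact_mod_cast h1) ?_ ?_ ?_
    · zify; linarith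
    · zify; linarith
    · zify; linarith
  · obtain ⟨p', rfl⟩ := Int.eq_ofNat_of_zero_le hp0
    obtain ⟨q', rfl⟩ := Int.eq_ofNat_of_zero_le hq0
    refine ⟨[l], [], rfl, ?_⟩
    rw [List.singleton_append]
    refine H_node_le (p := q') (q := p') hl hk (by exact_mod_cast hqH) (by exact_mod_cast hpW)
      (by rw [mul_comm]; exact hsB) ?_ ?_ ?_ ?_
    · zify; linarith
    · zify; linarith
    · zify; linarith
    · zify; linarith

end DKWF
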