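import Pool.Agent.Lib.MP_f05b2f_co.F.H

/-!
Redistribution of the second arguments of a sum `∑ H ls (n z) (b z)`: if the total is at most
`k * ls.prod`, the terms may be brought below `ls.prod` (push); dually (pull).  The class
statement `FSL` for sequences in one block of length `ls.prod` then extends to sequences in two
consecutive blocks.
-/

namespace DKWF

open Finset

/-- what is carried over to the next place -/
def carry (K : ℕ) (b : ℕ → ℕ) : ℕ → ℕ
  | 0 => 0
  | z + 1 => b z + carry K b z - K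

/-- the sequence after pushing -/
def push (K : ℕ) (b : ℕ → ℕ) (z : ℕ) : ℕ := min (b z + carry K b z) K

theorem push_le (K : ℕ) (b : ℕ → ℕ) (z : ℕ) : push K b z ≤ K := min_le_right _ _

theorem push_add_carry (K : ℕ) (b : ℕ → ℕ) (z : ℕ) :
    push K b z + carry K b (z + 1) = b z + carry K b z := by
  rw [push, carry]; omega

theorem sum_push (K : ℕ) (b : ℕ → ℕ) (k : ℕ) :
    ∑ z ∈ range k, push K b z + carry K b k = ∑ z ∈ range k, b z := by
  induction k with
  | zero => simp [carry]
  | succ k ih =>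
    rw [sum_range_succ, sum_range_succ]
    have := push_add_carry K b k
    omega

theorem push_antitone (K : ℕ) {b : ℕ → ℕ} (hb : Antitone b) : Antitone (push K b) := by
  apply antitone_nat_of_succ_le
  intro z
  have h1 := hb (Nat.le_succ z)
  simp only [push, carry]
  simp only [Nat.succ_eq_add_one] at h1
  omega

theorem carry_pos (K : ℕ) {b : ℕ → ℕ} (hb : Antitone b) (k : ℕ) (hc : 0 < carry K b k) :
    ∀ z < k, push K b z = K := by
  induction k with
  | zero => intro z hz; omega
  | succ k ih =>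
    intro z hz
    rw [carry] at hc
    rcases Nat.eq_zero_or_pos (carry K b k) with h0 | h0
    · have h1 : b k ≤ b z := hb (by omega)
      rw [push]
      omega
    · rcases Nat.lt_or_ge z k with h1 | h1
      · exact ih h0 z h1
      · have : z = k := by omega
        subst this
        rw [push]
        omega

theorem carry_eq_zero (K : ℕ) {b : ℕ → ℕ} (hb : Antitone b) (k : ℕ)
    (hs : ∑ z ∈ range k, b z ≤ k * K) : carry K b k = 0 := by
  by_contra hc
  have h1 := carry_pos K hb k (Nat.pos_of_ne_zero hc)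
  have h2 := sum_push K b k
  rw [sum_congr rfl (fun z hz => h1 z (mem_range.1 hz)), sum_const, card_range, smul_eq_mul] at h2
  omega

theorem push_cost {ls : List ℕ} (h : Pos ls) {n : ℕ → ℕ} (hn : Antitone n) (b : ℕ → ℕ) (k : ℕ) :
    ∑ z ∈ range k, H ls (n z) (push ls.prod b z) + H ls (n k) (carry ls.prod b k) ≤
      ∑ z ∈ range k, H ls (n z) (b z) := by
  induction k with
  | zero => simp [carry, H_zero_right]
  | succ k ih =>
    rw [sum_range_succ, sum_range_succ]
    have h1 : H ls (n (k + 1)) (carry ls.prod b (k + 1)) ≤ H ls (n k) (carry ls.prod b (k + 1)) :=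
      H_mono_left ls (hn (Nat.le_succ k)) _
    have h2 : H ls (n k) (push ls.prod b k) + H ls (n k) (carry ls.prod b (k + 1)) ≤
        H ls (n k) (b k) + H ls (n k) (carry ls.prod b k) := by
      have h3 := H_subadd h (n k) (b k) (carry ls.prod b k)
      rw [push, carry]
      by_cases h4 : b k + carry ls.prod b k ≤ ls.prod
      · rw [min_eq_left h4, Nat.sub_eq_zero_of_le h4, H_zero_right]
        omega
      · rw [not_le] at h4
        rw [min_eq_right h4.le]
        have h5 := H_add_prod h (n k) (b k + carry ls.prod b k - ls.prod)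
        rw [Nat.add_sub_cancel' h4.le] at h5
        omega
    omega

theorem push_exists {ls : List ℕ} (h : Pos ls) (k : ℕ) {n b : ℕ → ℕ} (hn : Antitone n)
    (hb : Antitone b) (hs : ∑ z ∈ range k, b z ≤ k * ls.prod) :
    ∃ θ : ℕ → ℕ, Antitone θ ∧ (∀ z, θ z ≤ ls.prod) ∧
      ∑ z ∈ range k, θ z = ∑ z ∈ range k, b z ∧
      ∑ z ∈ range k, H ls (n z) (θ z) ≤ ∑ z ∈ range k, H ls (n z) (b z) := by
  refine ⟨push ls.prod b, push_antitone _ hb, push_le _ _, ?_, ?_⟩
  · have := sum_push ls.prod b k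
    rw [carry_eq_zero _ hb k hs] at this
    simpa using this
  · have := push_cost h hn b k
    omega

theorem pull_exists {ls : List ℕ} (h : Pos ls) (k : ℕ) {n b : ℕ → ℕ} (hn : Antitone n)
    (hn' : ∀ z < k, n z ≤ ls.prod)
    (hb : Antitone b) (hb' : ∀ z < k, b z ≤ 2 * ls.prod)
    (hs : k * ls.prod ≤ ∑ z ∈ range k, b z) :
    ∃ θ : ℕ → ℕ, Antitone θ ∧ (∀ z, θ z ≤ ls.prod) ∧
      ∑ z ∈ range k, (ls.prod + θ z) = ∑ z ∈ range k, b z ∧
      ∑ z ∈ range k, H ls (n z) (ls.prod + θ z) ≤ ∑ z ∈ range k, H ls (n z) (b z) := by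
  have e1 : ∀ f : ℕ → ℕ, ∑ z ∈ range k, f (k - 1 - z) = ∑ z ∈ range k, f z :=
    fun f => sum_range_reflect f k
  have rev : ∀ {f : ℕ → ℕ}, Antitone f → ∀ c, Antitone (fun z => c - f (k - 1 - z)) := by
    intro f hf c z z' hz
    have : f (k - 1 - z) ≤ f (k - 1 - z') := hf (by omega)
    simp only
    omega
  have hbs : ∑ z ∈ range k, (2 * ls.prod - b (k - 1 - z)) + ∑ z ∈ range k, b z = 2 * (k * ls.prod) := by
    rw [e1 (fun z => 2 * ls.prod - b z), ← sum_add_distrib,
      sum_congr rfl (fun z hz => Nat.sub_add_cancel (hb' z (mem_range.1 hz))), sum_const,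
      card_range, smul_eq_mul]
    ring
  obtain ⟨θ, hθ, hθK, hθs, hθc⟩ := push_exists h k (n := fun z => ls.prod - n (k - 1 - z))
    (b := fun z => 2 * ls.prod - b (k - 1 - z)) (rev hn ls.prod) (rev hb (2 * ls.prod)) (by omega)
  refine ⟨fun z => ls.prod - θ (k - 1 - z), rev hθ ls.prod, fun z => Nat.sub_le _ _, ?_, ?_⟩
  · have e2 : ∑ z ∈ range k, (ls.prod + (ls.prod - θ (k - 1 - z))) + ∑ z ∈ range k, θ z = 2 * (k * ls.prod) := by
      rw [e1 (fun z => ls.prod + (ls.prod - θ z)), ← sum_add_distrib]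
      have e3 : ∀ z ∈ range k, ls.prod + (ls.prod - θ z) + θ z = 2 * ls.prod := by
        intro z _
        have := hθK z
        omega
      rw [sum_congr rfl e3, sum_const, card_range, smul_eq_mul]
      ring
    simp only at hθs ⊢
    omega
  · -- costs
    have c1 : ∀ x : ℕ → ℕ, (∀ z < k, x z ≤ 2 * ls.prod) →
        ∑ z ∈ range k, H ls (ls.prod - n z) (2 * ls.prod - x z) + 2 * ∑ z ∈ range k, n z +
          ∑ z ∈ range k, x z = 2 * (k * ls.prod) + ∑ z ∈ range k, H ls (n z) (x z) := by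
      intro x hx
      have e4 : ∑ z ∈ range k, (H ls (ls.prod - n z) (2 * ls.prod - x z) + 2 * n z + x z) =
          ∑ z ∈ range k, (2 * ls.prod + H ls (n z) (x z)) := by
        apply sum_congr rfl
        intro z hz
        exact H_compl h (hn' z (mem_range.1 hz)) (hx z (mem_range.1 hz))
      rw [sum_add_distrib, sum_add_distrib, sum_add_distrib, ← mul_sum, sum_const,
        card_range, smul_eq_mul] at e4
      rw [e4]
      ring
    have c2 := c1 b hb'
    have c3 := c1 (fun z => ls.prod + (ls.prod - θ (k - 1 - z))) (fun z _ => by omega)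
    have e5 : ∑ z ∈ range k, H ls (ls.prod - n z) (2 * ls.prod - (ls.prod + (ls.prod - θ (k - 1 - z)))) =
        ∑ z ∈ range k, H ls (ls.prod - n (k - 1 - z)) (θ z) := by
      rw [← e1 (fun z => H ls (ls.prod - n (k - 1 - z)) (θ z))]
      apply sum_congr rfl
      intro z hz
      have h1 := hθK (k - 1 - z)
      have h2 := mem_range.1 hz
      have e6 : k - 1 - (k - 1 - z) = z := by omega
      have e7 : 2 * ls.prod - (ls.prod + (ls.prod - θ (k - 1 - z))) = θ (k - 1 - z) := by omega
      rw [e6, e7]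
    have e8 : ∑ z ∈ range k, H ls (ls.prod - n (k - 1 - z)) (2 * ls.prod - b (k - 1 - z)) =
        ∑ z ∈ range k, H ls (ls.prod - n z) (2 * ls.prod - b z) :=
      e1 (fun z => H ls (ls.prod - n z) (2 * ls.prod - b z))
    have e9 : ∑ z ∈ range k, (ls.prod + (ls.prod - θ (k - 1 - z))) + ∑ z ∈ range k, θ z = 2 * (k * ls.prod) := by
      rw [e1 (fun z => ls.prod + (ls.prod - θ z)), ← sum_add_distrib]
      have e3 : ∀ z ∈ range k, ls.prod + (ls.prod - θ z) + θ z = 2 * ls.prod := by
        intro z _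
        have := hθK z
        omega
      rw [sum_congr rfl e3, sum_const, card_range, smul_eq_mul]
      ring
    simp only at c3 hθc ⊢
    rw [e5] at c3
    rw [e8] at hθc
    omega

/-- the first slice lemma for the class: `D ≥ F_t` for some position of `k` -/
def FSL (k : ℕ) (ls : List ℕ) : Prop :=
  ∀ a b : ℕ → ℕ, Antitone a → Antitone b → (∀ z, a z ≤ ls.prod) → (∀ z, b z ≤ ls.prod) →
    ∃ l1 l2, l1 ++ l2 = ls ∧
      H (l1 ++ k :: l2) (∑ z ∈ range k, a z) (∑ z ∈ range k, b z) ≤
        ∑ z ∈ range k, H ls (a z) (b z)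

theorem prod_insert (l1 l2 : List ℕ) (k : ℕ) : (l1 ++ k :: l2).prod = k * (l1 ++ l2).prod := by
  rw [List.prod_append, List.prod_append, List.prod_cons]; ring

theorem Pos.insert {l1 l2 : List ℕ} {k : ℕ} (hk : 0 < k) (h : Pos (l1 ++ l2)) :
    Pos (l1 ++ k :: l2) := by
  rw [Pos.append_iff] at h ⊢
  rw [Pos.cons_iff]
  exact ⟨h.1, hk, h.2⟩

theorem sum_le_mul {k K : ℕ} {f : ℕ → ℕ} (h : ∀ z < k, f z ≤ K) : ∑ z ∈ range k, f z ≤ k * K := by
  have := sum_le_sum (fun z (hz : z ∈ range k) => h z (mem_range.1 hz))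
  rwa [sum_const, card_range, smul_eq_mul] at this

theorem FSL.two {k : ℕ} (hk : 0 < k) {ls : List ℕ} (h : Pos ls) (F : FSL k ls) {n b : ℕ → ℕ}
    (hn : Antitone n) (hn' : ∀ z, n z ≤ ls.prod) (hb : Antitone b) (m : ℕ)
    (hb1 : ∀ z < k, m * ls.prod ≤ b z) (hb2 : ∀ z < k, b z ≤ (m + 2) * ls.prod) :
    ∃ l1 l2, l1 ++ l2 = ls ∧
      H (l1 ++ k :: l2) (∑ z ∈ range k, n z) (∑ z ∈ range k, b z) ≤
        ∑ z ∈ range k, H ls (n z) (b z) := by
  -- remove m blocks
  have hc' : Antitone (fun z => b z - m * ls.prod) := fun z z' hz => Nat.sub_le_sub_right (hb hz) _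
  have e1 : ∑ z ∈ range k, b z = m * (k * ls.prod) + ∑ z ∈ range k, (b z - m * ls.prod) := by
    have : ∀ z ∈ range k, b z = m * ls.prod + (b z - m * ls.prod) := by
      intro z hz
      have := hb1 z (mem_range.1 hz)
      omega
    rw [sum_congr rfl this, sum_add_distrib, sum_const, card_range, smul_eq_mul]
    congr 1
    ring
  have e2 : ∑ z ∈ range k, H ls (n z) (b z) =
      m * ∑ z ∈ range k, n z + ∑ z ∈ range k, H ls (n z) (b z - m * ls.prod) := by
    rw [mul_sum, ← sum_add_distrib]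
    apply sum_congr rfl
    intro z hz
    rw [← H_period h (hn' z), Nat.add_sub_cancel' (hb1 z (mem_range.1 hz))]
  have hsn : ∑ z ∈ range k, n z ≤ k * ls.prod := sum_le_mul (fun z _ => hn' z)
  have key : ∃ l1 l2, l1 ++ l2 = ls ∧
      H (l1 ++ k :: l2) (∑ z ∈ range k, n z) (∑ z ∈ range k, (b z - m * ls.prod)) ≤
        ∑ z ∈ range k, H ls (n z) (b z - m * ls.prod) := by
    rcases le_total (∑ z ∈ range k, (b z - m * ls.prod)) (k * ls.prod) with hs | hs
    · obtain ⟨θ, hθ, hθK, hθs, hθc⟩ := push_exists h k hn hc' hs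
      obtain ⟨l1, l2, hl, hF⟩ := F n θ hn hθ hn' hθK
      refine ⟨l1, l2, hl, ?_⟩
      rw [← hθs]
      exact hF.trans hθc
    · obtain ⟨θ, hθ, hθK, hθs, hθc⟩ := pull_exists h k hn (fun z _ => hn' z) hc'
        (fun z hz => by
          have h1 := hb2 z hz
          have h2 : (m + 2) * ls.prod = m * ls.prod + 2 * ls.prod := by ring
          omega) hs
      obtain ⟨l1, l2, hl, hF⟩ := F n θ hn hθ hn' hθK
      refine ⟨l1, l2, hl, ?_⟩
      rw [← hθs]
      refine le_trans ?_ hθc
      have hp : (l1 ++ k :: l2).prod = k * ls.prod := by rw [prod_insert, hl]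
      have hpos : Pos (l1 ++ k :: l2) := Pos.insert hk (hl ▸ h)
      have e3 : ∑ z ∈ range k, (ls.prod + θ z) = 1 * (l1 ++ k :: l2).prod + ∑ z ∈ range k, θ z := by
        rw [sum_add_distrib, sum_const, card_range, smul_eq_mul, hp, one_mul]
      have e4 : ∀ z ∈ range k, H ls (n z) (ls.prod + θ z) = n z + H ls (n z) (θ z) := by
        intro z _
        have := H_period h (hn' z) 1 (θ z)
        rwa [one_mul, one_mul] at this
      rw [e3, H_period hpos (by rw [hp]; exact hsn), sum_congr rfl e4, sum_add_distrib, one_mul]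
      omega
  obtain ⟨l1, l2, hl, hF⟩ := key
  refine ⟨l1, l2, hl, ?_⟩
  have hp : (l1 ++ k :: l2).prod = k * ls.prod := by rw [prod_insert, hl]
  have hpos : Pos (l1 ++ k :: l2) := Pos.insert hk (hl ▸ h)
  rw [e1, e2, ← hp, H_period hpos (by rw [hp]; exact hsn)]
  omega

end DKWF
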