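import Pool.Agent.Lib.MP_f05b2f_co.F.Push

/-!
Sections.  For a splitting `l1 ++ l2` of the list of chain lengths, fixing the first block of
digits gives sections in `C_k × l2`; `S k l1 l2 a b` is the sum of the values `H (k :: l2)` of the
sections.  The main result: `S k l1 (l2 ++ [l]) a b` is at least the value of some position of `k`
before the last digit, if `FSL` holds without the last digit.
-/

namespace DKWF

open Finset

/-- last digit: if the partial rows are in different rows, they can be dropped or completed -/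
theorem FSL.cyl {k : ℕ} (hk : 0 < k) {l : ℕ} (hl : 0 < l) {ls : List ℕ} (h : Pos ls)
    (F : FSL k ls) {a b : ℕ → ℕ} (ha : Antitone a) (hb : Antitone b)
    (ha' : ∀ z, a z ≤ ls.prod * l) (hb' : ∀ z, b z ≤ ls.prod * l)
    (hi : ∀ z z' q, z < z' → q * l < a z' → (q + 1) * l ≤ a z) (m : ℕ)
    (hb1 : ∀ z < k, m * ls.prod ≤ b z) (hb2 : ∀ z < k, b z ≤ (m + 2) * ls.prod) :
    ∃ l1 l2, l1 ++ l2 = ls ∧
      H (l1 ++ k :: (l2 ++ [l])) (∑ z ∈ range k, a z) (∑ z ∈ range k, b z) ≤
        ∑ z ∈ range k, H (ls ++ [l]) (a z) (b z) := by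
  choose η hη1 hη2 using fun z => H_row h hl (a z / l) (hb' z)
  obtain ⟨n, hn⟩ : ∃ n : ℕ → ℕ, n = fun z => if a z % l ≤ η z then a z / l else a z / l + 1 :=
    ⟨_, rfl⟩
  obtain ⟨dn, hdn⟩ : ∃ dn : ℕ → ℕ, dn = fun z => if a z % l ≤ η z then a z % l else 0 := ⟨_, rfl⟩
  have hdm : ∀ z, l * (a z / l) + a z % l = a z := fun z => Nat.div_add_mod _ _
  have hml : ∀ z, a z % l < l := fun z => Nat.mod_lt _ hl
  have e1 : ∀ z, H (ls ++ [l]) (a z) (b z) = H ls (n z) (b z) + dn z := by
    intro z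
    have h1 := hη2 z (a z % l) (hml z).le
    rw [hdm] at h1
    rw [h1, hn, hdn]
    simp only
    split_ifs with h2
    · rw [H_snoc hl, min_eq_left h2]
    · have h3 := hη2 z l le_rfl
      rw [min_eq_right (hη1 z)] at h3
      have h4 : l * (a z / l) + l = l * (a z / l + 1) := by ring
      rw [h4, H_snoc hl] at h3
      rw [min_eq_right (by omega), h3, add_zero]
  have e2 : ∀ z, a z ≤ l * n z + dn z := by
    intro z
    have h1 := hdm z
    have h2 := hml z
    have h4 : l * (a z / l) + l = l * (a z / l + 1) := by ring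
    rw [hn, hdn]
    simp only
    split_ifs <;> omega
  have hnle : ∀ z, n z ≤ ls.prod := by
    intro z
    have h1 := hdm z
    have h2 := hml z
    have h3 := ha' z
    rw [hn]
    simp only
    split_ifs with h4
    · by_contra hcon
      have h5 : (ls.prod + 1) * l ≤ (a z / l) * l := Nat.mul_le_mul_right _ (not_le.1 hcon)
      rw [Nat.succ_mul, mul_comm (a z / l)] at h5
      omega
    · by_contra hcon
      have h5 : ls.prod * l ≤ (a z / l) * l := Nat.mul_le_mul_right _ (by omega)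
      rw [mul_comm (a z / l)] at h5
      omega
  have hnanti : Antitone n := by
    intro z z' hz
    rcases Nat.eq_or_lt_of_le hz with rfl | hz
    · exact le_rfl
    have h1 := hdm z'
    have h2 := hml z'
    have h3 : a z / l ≤ n z := by rw [hn]; simp only; split_ifs <;> omega
    rcases Nat.eq_zero_or_pos (a z' % l) with h0 | h0
    · have h4 : n z' = a z' / l := by rw [hn]; simp only; rw [if_pos (by omega)]
      rw [h4]
      exact (Nat.div_le_div_right (ha hz.le)).trans h3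
    · have h4 : n z' ≤ a z' / l + 1 := by rw [hn]; simp only; split_ifs <;> omega
      have h5 := hi z z' (a z' / l) hz (by rw [mul_comm (a z' / l)]; omega)
      have h6 : a z' / l + 1 ≤ a z / l := (Nat.le_div_iff_mul_le hl).2 h5
      omega
  obtain ⟨l1, l2, hll, hF⟩ := F.two hk h hnanti hnle hb m hb1 hb2
  refine ⟨l1, l2, hll, ?_⟩
  have eL : l1 ++ k :: (l2 ++ [l]) = (l1 ++ k :: l2) ++ [l] := by simp
  have hpos : Pos ((l1 ++ k :: l2) ++ [l]) := by
    rw [Pos.append_iff]
    exact ⟨Pos.insert hk (hll ▸ h), by simp [Pos, hl]⟩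
  have hprod : ((l1 ++ k :: l2) ++ [l]).prod = k * (ls.prod * l) := by
    rw [List.prod_append, prod_insert, hll]
    simp
    ring
  have hsb : ∑ z ∈ range k, b z ≤ ((l1 ++ k :: l2) ++ [l]).prod := by
    rw [hprod]
    exact sum_le_mul (fun z _ => hb' z)
  have hsa : ∑ z ∈ range k, a z ≤ l * ∑ z ∈ range k, n z + ∑ z ∈ range k, dn z := by
    rw [mul_sum, ← sum_add_distrib]
    exact sum_le_sum (fun z _ => e2 z)
  rw [eL, sum_congr rfl (fun z _ => e1 z), sum_add_distrib]
  calc H ((l1 ++ k :: l2) ++ [l]) (∑ z ∈ range k, a z) (∑ z ∈ range k, b z)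
      ≤ H ((l1 ++ k :: l2) ++ [l]) (l * ∑ z ∈ range k, n z + ∑ z ∈ range k, dn z)
          (∑ z ∈ range k, b z) := H_mono_left _ hsa _
    _ ≤ H ((l1 ++ k :: l2) ++ [l]) (l * ∑ z ∈ range k, n z) (∑ z ∈ range k, b z) +
          ∑ z ∈ range k, dn z := H_lip_left hpos _ _ hsb
    _ = H (l1 ++ k :: l2) (∑ z ∈ range k, n z) (∑ z ∈ range k, b z) + ∑ z ∈ range k, dn z := by
          rw [H_snoc hl]
    _ ≤ _ := Nat.add_le_add_right hF _

/-- sizes of the sections of `A` (by the position `p` of the first block in the first order) -/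
def secA (V k : ℕ) (a : ℕ → ℕ) (p : ℕ) : ℕ := ∑ z ∈ range k, min (a z - p * V) V

/-- sizes of the sections of `B` (by the position `ρ` of the first block in the second order) -/
def secB (U k : ℕ) (b : ℕ → ℕ) (ρ : ℕ) : ℕ := ∑ z ∈ range k, (b z + (U - 1 - ρ)) / U

/-- the sum of the values of the sections for `k` in the first place -/
def S (k : ℕ) (l1 l2 : List ℕ) (a b : ℕ → ℕ) : ℕ :=
  ∑ ρ ∈ range l1.prod, H (k :: l2) (secA l2.prod k a (lam l1 ρ)) (secB l1.prod k b ρ)

def newA (U V k : ℕ) (a : ℕ → ℕ) (z : ℕ) : ℕ := ∑ p ∈ range U, min (secA V k a p - z * V) V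

def newB (U k : ℕ) (b : ℕ → ℕ) (z : ℕ) : ℕ := ∑ ρ ∈ range U, (secB U k b ρ + (k - 1 - z)) / k

theorem secA_step (V k : ℕ) (a : ℕ → ℕ) (p : ℕ) :
    ∃ j, secA V k a (p + 1) ≤ j * V ∧ j * V ≤ secA V k a p := by
  refine ⟨∑ z ∈ range k, if (p + 1) * V ≤ a z then 1 else 0, ?_, ?_⟩
  · rw [secA, sum_mul]
    apply sum_le_sum
    intro z _
    split_ifs <;> omega
  · rw [secA, sum_mul]
    apply sum_le_sum
    intro z _
    rw [Nat.succ_mul]
    split_ifs <;> omega

theorem clip_seq {V : ℕ} (hV : 0 < V) {c : ℕ → ℕ} (hc : ∀ p, c p ≤ V)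
    (hs : ∀ p, c p < V → c (p + 1) = 0) (U : ℕ) :
    ∀ p < U, c p = min (∑ p ∈ range U, c p - p * V) V := by
  have h0 : ∀ p d, c p < V → c (p + 1 + d) = 0 := by
    intro p d hp
    induction d with
    | zero => exact hs p hp
    | succ d ih => rw [← add_assoc]; exact hs _ (by omega)
  have h1 : ∀ m, ∑ p ∈ range m, c p = m * V ∨ ∀ p, m ≤ p → c p = 0 := by
    intro m
    induction m with
    | zero => left; simp
    | succ m ih =>
      rcases ih with ih | ih
      · rcases Nat.lt_or_ge (c m) V with h2 | h2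
        · right
          intro p hp
          obtain ⟨d, rfl⟩ := Nat.exists_eq_add_of_le hp
          exact h0 m d h2
        · left
          rw [sum_range_succ, ih, Nat.succ_mul, le_antisymm (hc m) h2]
      · right
        exact fun p hp => ih p (by omega)
  have h2 : ∀ m, m ≤ U → (∀ p, m ≤ p → c p = 0) →
      ∑ p ∈ range U, c p = ∑ p ∈ range m, c p := by
    intro m hm h3
    symm
    apply sum_subset (range_subset_range.2 hm)
    intro p _ hp
    exact h3 p (by simpa using hp)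
  intro p hp
  have h4 : ∑ p ∈ range (p + 1), c p ≤ ∑ p ∈ range U, c p :=
    sum_le_sum_of_subset (range_subset_range.2 hp)
  have h5 : ∑ p ∈ range p, c p ≤ p * V := sum_le_mul (fun z _ => hc z)
  rcases h1 p with h3 | h3
  · rcases Nat.lt_or_ge (c p) V with h6 | h6
    · have h7 := h2 (p + 1) hp (fun q hq => by
        obtain ⟨d, rfl⟩ := Nat.exists_eq_add_of_le hq
        exact h0 p d h6)
      rw [h7, sum_range_succ, h3]
      omega
    · rw [sum_range_succ, h3] at h4
      have := hc p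
      omega
  · rw [h2 p hp.le h3, h3 p le_rfl]
    omega

theorem two_val {U : ℕ} (hU : 0 < U) {d : ℕ → ℕ} (hd : ∀ i j, i ≤ j → j < U → d j ≤ d i)
    (h2 : d 0 ≤ d (U - 1) + 1) :
    ∀ ρ < U, d ρ = (∑ ρ ∈ range U, d ρ + (U - 1 - ρ)) / U := by
  have hlo : ∀ ρ < U, d (U - 1) ≤ d ρ := fun ρ hρ => hd ρ (U - 1) (by omega) (by omega)
  have hhi : ∀ ρ < U, d ρ ≤ d (U - 1) + 1 := fun ρ hρ => (hd 0 ρ (Nat.zero_le _) hρ).trans h2
  have h3 := clip_seq (V := 1) one_pos (c := fun ρ => if ρ < U then d ρ - d (U - 1) else 0)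
    (fun ρ => by
      split_ifs with h
      · have := hhi ρ h; omega
      · exact Nat.zero_le _)
    (fun ρ hρ => by
      split_ifs with h
      · rw [if_pos (by omega)] at hρ
        have := hd ρ (ρ + 1) (by omega) h
        omega
      · rfl) U
  have h4 : ∑ ρ ∈ range U, (if ρ < U then d ρ - d (U - 1) else 0) =
      ∑ ρ ∈ range U, (d ρ - d (U - 1)) :=
    sum_congr rfl (fun ρ hρ => if_pos (mem_range.1 hρ))
  have h5 : ∑ ρ ∈ range U, d ρ = U * d (U - 1) + ∑ ρ ∈ range U, (d ρ - d (U - 1)) := by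
    have : ∀ ρ ∈ range U, d ρ = d (U - 1) + (d ρ - d (U - 1)) := by
      intro ρ hρ
      have := hlo ρ (mem_range.1 hρ)
      omega
    rw [sum_congr rfl this, sum_add_distrib, sum_const, card_range, smul_eq_mul]
  have h6 : ∑ ρ ∈ range U, (d ρ - d (U - 1)) ≤ U * 1 :=
    sum_le_mul (fun ρ hρ => by have := hhi ρ hρ; omega)
  intro ρ hρ
  have h7 := h3 ρ hρ
  rw [h4, if_pos hρ] at h7
  rw [h5]
  generalize ∑ ρ ∈ range U, (d ρ - d (U - 1)) = j at *
  rw [add_assoc, Nat.mul_add_div hU]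
  have h8 := hlo ρ hρ
  have h9 : (j + (U - 1 - ρ)) / U = if ρ < j then 1 else 0 := by
    split_ifs with h
    · rw [Nat.div_eq_iff hU]; omega
    · rw [Nat.div_eq_of_lt]; omega
  rw [h9]
  split_ifs <;> omega

theorem secA_antitone (V k : ℕ) (a : ℕ → ℕ) : Antitone (secA V k a) := by
  apply antitone_nat_of_succ_le
  intro p
  obtain ⟨j, h1, h2⟩ := secA_step V k a p
  omega

theorem secA_le (V k : ℕ) (a : ℕ → ℕ) (p : ℕ) : secA V k a p ≤ k * V :=
  sum_le_mul (fun _ _ => min_le_right _ _)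

theorem clip_secA {V : ℕ} (hV : 0 < V) (U k : ℕ) (a : ℕ → ℕ) (z : ℕ) :
    ∀ p < U, min (secA V k a p - z * V) V = min (newA U V k a z - p * V) V := by
  apply clip_seq hV (c := fun p => min (secA V k a p - z * V) V) (fun p => min_le_right _ _)
  intro p hp
  obtain ⟨j, h1, h2⟩ := secA_step V k a p
  have h3 : j ≤ z := by
    by_contra hcon
    have h4 : (z + 1) * V ≤ j * V := Nat.mul_le_mul_right _ (not_le.1 hcon)
    rw [Nat.succ_mul] at h4
    omega
  have h5 : j * V ≤ z * V := Nat.mul_le_mul_right _ h3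
  omega

theorem secB_le {U V k : ℕ} (hU : 0 < U) {b : ℕ → ℕ} (hb : ∀ z, b z ≤ U * V) (ρ : ℕ) :
    secB U k b ρ ≤ k * V := by
  apply sum_le_mul
  intro z _
  rw [Nat.div_le_iff_le_mul_add_pred hU]
  have := hb z
  omega

theorem secB_antitone (U k : ℕ) (b : ℕ → ℕ) : Antitone (secB U k b) := by
  intro i j hij
  apply sum_le_sum
  intro z _
  apply Nat.div_le_div_right
  omega

theorem secB_width {U : ℕ} (hU : 0 < U) (k : ℕ) (b : ℕ → ℕ) :
    secB U k b 0 ≤ secB U k b (U - 1) + k := by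
  have h1 : ∀ z ∈ range k, (b z + (U - 1 - 0)) / U ≤ (b z + (U - 1 - (U - 1))) / U + 1 := by
    intro z _
    rw [Nat.div_le_iff_le_mul_add_pred hU]
    have h2 := Nat.div_add_mod (b z) U
    have h3 := Nat.mod_lt (b z) hU
    have e : b z + (U - 1 - (U - 1)) = b z := by omega
    rw [e, Nat.mul_add]
    omega
  have h2 := sum_le_sum h1
  rw [sum_add_distrib, sum_const, card_range, smul_eq_mul, mul_one] at h2
  exact h2

theorem secB_two {U : ℕ} (hU : 0 < U) {k : ℕ} (hk : 0 < k) (b : ℕ → ℕ) (z : ℕ) :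
    ∀ ρ < U, (secB U k b ρ + (k - 1 - z)) / k = (newB U k b z + (U - 1 - ρ)) / U := by
  apply two_val hU (d := fun ρ => (secB U k b ρ + (k - 1 - z)) / k)
  · intro i j hij _
    apply Nat.div_le_div_right
    have := secB_antitone U k b hij
    omega
  · have h1 := secB_width hU k b
    have h2 : (secB U k b 0 + (k - 1 - z)) / k ≤
        (secB U k b (U - 1) + (k - 1 - z) + k) / k := Nat.div_le_div_right (by omega)
    rwa [Nat.add_div_right _ hk] at h2

/-- the sum of the values of the sections is the value of a new pair in the class -/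
theorem S_eq {k : ℕ} (hk : 0 < k) {l1 l2 : List ℕ} (h1 : Pos l1) (h2 : Pos l2) (a b : ℕ → ℕ) :
    S k l1 l2 a b = ∑ z ∈ range k,
      H (l1 ++ l2) (newA l1.prod l2.prod k a z) (newB l1.prod k b z) := by
  have hU := h1.prod_pos
  have hV := h2.prod_pos
  rw [S]
  simp only [H_cons hk, H_append h1]
  rw [sum_comm]
  apply sum_congr rfl
  intro z hz
  apply sum_congr rfl
  intro ρ hρ
  rw [← H_clip h2, clip_secA hV l1.prod k a z _ (lam_lt h1 ρ), H_clip h2,
    secB_two hU hk b z ρ (mem_range.1 hρ)]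

/-- if all the sections are good for `k` first, the sum is at most the original value -/
theorem S_le {k : ℕ} {l1 l2 : List ℕ} (h1 : Pos l1) {a b : ℕ → ℕ}
    (hg : ∀ ρ < l1.prod, H (k :: l2) (secA l2.prod k a (lam l1 ρ)) (secB l1.prod k b ρ) ≤
      ∑ z ∈ range k, H l2 (a z - lam l1 ρ * l2.prod)
        ((b z + (l1.prod - 1 - ρ)) / l1.prod)) :
    S k l1 l2 a b ≤ ∑ z ∈ range k, H (l1 ++ l2) (a z) (b z) := by
  simp only [H_append h1]
  rw [sum_comm, S]
  exact sum_le_sum (fun ρ hρ => hg ρ (mem_range.1 hρ))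

theorem sum_newA {U V k : ℕ} {a : ℕ → ℕ} (ha : ∀ z, a z ≤ U * V) :
    ∑ z ∈ range k, newA U V k a z = ∑ z ∈ range k, a z := by
  have e1 : ∑ z ∈ range k, newA U V k a z = ∑ p ∈ range U, secA V k a p := by
    simp only [newA]
    rw [sum_comm]
    apply sum_congr rfl
    intro p _
    rw [sum_clip, min_eq_left (secA_le V k a p)]
  rw [e1]
  simp only [secA]
  rw [sum_comm]
  apply sum_congr rfl
  intro z _
  rw [sum_clip, min_eq_left (ha z)]

theorem sum_newB {U k : ℕ} (hU : 0 < U) (hk : 0 < k) (b : ℕ → ℕ) :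
    ∑ z ∈ range k, newB U k b z = ∑ z ∈ range k, b z := by
  simp only [newB]
  rw [sum_comm, sum_congr rfl (fun ρ _ => sum_ceil hk (secB U k b ρ))]
  unfold secB
  rw [sum_comm, sum_congr rfl (fun z _ => sum_ceil hU (b z))]

theorem newA_le (U V k : ℕ) (a : ℕ → ℕ) (z : ℕ) : newA U V k a z ≤ U * V :=
  sum_le_mul (fun _ _ => min_le_right _ _)

theorem newB_le {U V k : ℕ} (hU : 0 < U) (hk : 0 < k) {b : ℕ → ℕ} (hb : ∀ z, b z ≤ U * V)
    (z : ℕ) : newB U k b z ≤ U * V := by
  apply sum_le_mul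
  intro ρ _
  rw [Nat.div_le_iff_le_mul_add_pred hk]
  have := secB_le (k := k) hU hb ρ
  omega

theorem newA_antitone (U V k : ℕ) (a : ℕ → ℕ) : Antitone (newA U V k a) := by
  intro z z' hz
  apply sum_le_sum
  intro p _
  have : z * V ≤ z' * V := Nat.mul_le_mul_right _ hz
  omega

theorem newB_antitone (U k : ℕ) (b : ℕ → ℕ) : Antitone (newB U k b) := by
  intro z z' hz
  apply sum_le_sum
  intro p _
  apply Nat.div_le_div_right
  omega

theorem newA_gap {U V k : ℕ} (hV : 0 < V) {a : ℕ → ℕ} {z z' p : ℕ} (hz : z < z')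
    (hp : p * V < newA U V k a z') : (p + 1) * V ≤ newA U V k a z := by
  have h1 : p < U := by
    by_contra hcon
    have h2 : U * V ≤ p * V := Nat.mul_le_mul_right _ (not_lt.1 hcon)
    have := newA_le U V k a z'
    omega
  have h3 := clip_secA hV U k a z' p h1
  have h4 := clip_secA hV U k a z p h1
  have h5 : (z + 1) * V ≤ z' * V := Nat.mul_le_mul_right _ hz
  rw [Nat.succ_mul] at h5 ⊢
  omega

theorem newB_range {U : ℕ} (hU : 0 < U) {k : ℕ} (hk : 0 < k) (b : ℕ → ℕ) (z : ℕ) :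
    secB U k b (U - 1) / k * U ≤ newB U k b z ∧
      newB U k b z ≤ (secB U k b (U - 1) / k + 2) * U := by
  have h1 : ∀ ρ ∈ range U, secB U k b (U - 1) / k ≤ (secB U k b ρ + (k - 1 - z)) / k := by
    intro ρ hρ
    apply Nat.div_le_div_right
    have := secB_antitone U k b (show ρ ≤ U - 1 by have := mem_range.1 hρ; omega)
    omega
  have h2 : ∀ ρ ∈ range U, (secB U k b ρ + (k - 1 - z)) / k ≤ secB U k b (U - 1) / k + 2 := by
    intro ρ hρ
    rw [Nat.div_le_iff_le_mul_add_pred hk]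
    have h3 := secB_antitone U k b (Nat.zero_le ρ)
    have h4 := secB_width hU k b
    have h5 := Nat.div_add_mod (secB U k b (U - 1)) k
    have h6 := Nat.mod_lt (secB U k b (U - 1)) hk
    rw [Nat.mul_add]
    omega
  have h3 := sum_le_sum h1
  have h4 := sum_le_sum h2
  rw [sum_const, card_range, smul_eq_mul] at h3 h4
  rw [mul_comm, mul_comm _ U]
  exact ⟨h3, h4⟩

/-- the sum over the sections is at least the value of some position before the last digit -/
theorem S_ge {k : ℕ} (hk : 0 < k) {l : ℕ} (hl : 0 < l) {l1 l2 : List ℕ} (h1 : Pos l1)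
    (h2 : Pos l2) (F : FSL k (l1 ++ l2)) {a b : ℕ → ℕ}
    (ha' : ∀ z, a z ≤ (l1 ++ (l2 ++ [l])).prod) (hb' : ∀ z, b z ≤ (l1 ++ (l2 ++ [l])).prod) :
    ∃ m1 m2, m1 ++ m2 = l1 ++ l2 ∧
      H (m1 ++ k :: (m2 ++ [l])) (∑ z ∈ range k, a z) (∑ z ∈ range k, b z) ≤
        S k l1 (l2 ++ [l]) a b := by
  have hU := h1.prod_pos
  have hW := h2.prod_pos
  have hl1 : Pos [l] := by simp [Pos, hl]
  have h3 : Pos (l2 ++ [l]) := Pos.append_iff.2 ⟨h2, hl1⟩
  have h12 : Pos (l1 ++ l2) := Pos.append_iff.2 ⟨h1, h2⟩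
  have eV : (l2 ++ [l]).prod = l2.prod * l := by simp
  have e12 : (l1 ++ l2).prod = l1.prod * l2.prod := List.prod_append
  have eN : (l1 ++ (l2 ++ [l])).prod = l1.prod * (l2.prod * l) := by rw [List.prod_append, eV]
  have hV : 0 < l2.prod * l := Nat.mul_pos hW hl
  rw [eN] at ha' hb'
  rw [S_eq hk h1 h3, eV]
  have eL : l1 ++ (l2 ++ [l]) = (l1 ++ l2) ++ [l] := by simp
  rw [eL, ← sum_newA ha', ← sum_newB hU hk b]
  have hm : ∀ z, secB l1.prod k b (l1.prod - 1) / k / l2.prod * (l1 ++ l2).prod ≤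
      newB l1.prod k b z ∧ newB l1.prod k b z ≤
        (secB l1.prod k b (l1.prod - 1) / k / l2.prod + 2) * (l1 ++ l2).prod := by
    intro z
    have h4 := newB_range hU hk b z
    generalize secB l1.prod k b (l1.prod - 1) / k = Q at h4 ⊢
    have h5 := Nat.div_add_mod Q l2.prod
    have h6 := Nat.mod_lt Q hW
    generalize Q / l2.prod = m at h5 ⊢
    rw [e12]
    constructor
    · refine le_trans ?_ h4.1
      have : m * (l1.prod * l2.prod) = (l2.prod * m) * l1.prod := by ring
      rw [this]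
      exact Nat.mul_le_mul_right _ (by omega)
    · refine h4.2.trans ?_
      have : (m + 2) * (l1.prod * l2.prod) = (l2.prod * m + 2 * l2.prod) * l1.prod := by ring
      rw [this]
      exact Nat.mul_le_mul_right _ (by omega)
  refine F.cyl hk hl h12 (newA_antitone _ _ _ _) (newB_antitone _ _ _) ?_ ?_ ?_
    (secB l1.prod k b (l1.prod - 1) / k / l2.prod) (fun z _ => (hm z).1) (fun z _ => (hm z).2)
  · intro z
    have := newA_le l1.prod (l2.prod * l) k a z
    rw [e12, mul_assoc]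
    exact this
  · intro z
    have := newB_le (V := l2.prod * l) hU hk hb' z
    rw [e12, mul_assoc]
    exact this
  · intro z z' q hz hq
    have h5 := Nat.div_add_mod q l2.prod
    have h6 := Nat.mod_lt q hW
    have h7 : (q / l2.prod) * (l2.prod * l) < newA l1.prod (l2.prod * l) k a z' := by
      refine lt_of_le_of_lt ?_ hq
      have : (q / l2.prod) * (l2.prod * l) = (l2.prod * (q / l2.prod)) * l := by ring
      rw [this]
      exact Nat.mul_le_mul_right _ (by omega)
    have h8 := newA_gap hV hz h7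
    refine le_trans ?_ h8
    have : (q / l2.prod + 1) * (l2.prod * l) = (l2.prod * (q / l2.prod) + l2.prod) * l := by ring
    rw [this]
    exact Nat.mul_le_mul_right _ (by omega)

/-- the symmetry -/
theorem FSL.reverse {k : ℕ} (hk : 0 < k) {ls : List ℕ} (h : Pos ls) (F : FSL k ls) :
    FSL k ls.reverse := by
  intro a b ha hb ha' hb'
  rw [prod_reverse] at ha' hb'
  obtain ⟨l1, l2, hl, hF⟩ := F b a hb ha hb' ha'
  refine ⟨l2.reverse, l1.reverse, by rw [← List.reverse_append, hl], ?_⟩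
  have hpos : Pos (l1 ++ k :: l2) := Pos.insert hk (hl ▸ h)
  have hp : (l1 ++ k :: l2).prod = k * ls.prod := by rw [prod_insert, hl]
  rw [H_comm hpos (by rw [hp]; exact sum_le_mul (fun z _ => hb' z))
    (by rw [hp]; exact sum_le_mul (fun z _ => ha' z))] at hF
  have e1 : (l1 ++ k :: l2).reverse = l2.reverse ++ k :: l1.reverse := by simp
  rw [e1] at hF
  refine hF.trans (le_of_eq ?_)
  apply sum_congr rfl
  intro z _
  rw [H_comm h (hb' z) (ha' z)]

end DKWF
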