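import Pool.Agent.Lib.MP_f05b2f_co.F.KTwo
import Pool.Agent.Lib.MP_f05b2f_co.UB.Rec
import Pool.Agent.Lib.MP_f05b2f_co.UB.Slice

/-!
Connection with subsets of products of chains: `H` is the size of `L_σ(α) ∩ R_σ(β)`; slices; the
theorem of Daykin, Kleitman and West for equal chains; reduction of the case of all chains but one
equal to `FSL`.
-/

namespace DKWF

open Finset DKW DKW.UB

theorem prod_ofFn_perm {n : ℕ} (k : Fin n → ℕ) (σ : Equiv.Perm (Fin n)) :
    (List.ofFn (fun t => k (σ t))).prod = ∏ i, k i := by
  rw [List.prod_ofFn]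
  exact Equiv.prod_comp σ k

theorem pos_ofFn_perm {n : ℕ} {k : Fin n → ℕ} (hk : ∀ i, 0 < k i) (σ : Equiv.Perm (Fin n)) :
    Pos (List.ofFn (fun t => k (σ t))) := by
  intro l hl
  rw [List.mem_ofFn] at hl
  obtain ⟨t, rfl⟩ := hl
  exact hk _

/-- `H` counts `L_σ(α) ∩ R_σ(β)` -/
theorem card_inter_eq_H : ∀ (n : ℕ) (k : Fin n → ℕ) (_ : ∀ i, 0 < k i)
    (σ : Equiv.Perm (Fin n)) (α β : ℕ), α ≤ ∏ i, k i → β ≤ ∏ i, k i →
    #(L k σ α ∩ R k σ β) = H (List.ofFn (fun t => k (σ t))) α β := by
  classical
  intro n
  induction n with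
  | zero =>
    intro k hk σ α β hα hβ
    have hp : ∏ i, k i = 1 := by simp
    rw [hp] at hα hβ
    rw [List.ofFn_zero, H_nil]
    rcases Nat.eq_zero_or_pos α with rfl | h
    · rw [L, initSeg_zero]; simp
    · have h1 : α = ∏ i, k i := by rw [hp]; omega
      rw [if_pos h, h1, L, initSeg_full (good_lex σ), Finset.univ_inter, R,
        card_initSeg (good_rev σ) (by rw [card_box, hp]; exact hβ)]
  | succ n ih =>
    intro k hk σ α β hα hβ
    have hm : ∏ j, k ((σ 0).succAbove j) = ∏ j, k ((σ 0).succAbove j) := rfl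
    obtain ⟨m, hm⟩ : ∃ m, ∏ j, k ((σ 0).succAbove j) = m := ⟨_, rfl⟩
    have hprod : ∏ i, k i = k (σ 0) * m := by
      rw [Fin.prod_univ_succAbove k (σ 0), hm]
    have hm0 : 0 < m := by
      rw [← hm]
      exact Finset.prod_pos (fun i _ => hk _)
    have hK0 : 0 < k (σ 0) := hk _
    have els : List.ofFn (fun t => k (σ t)) =
        k (σ 0) :: List.ofFn (fun t => k ((σ 0).succAbove (tail σ t))) := by
      rw [List.ofFn_succ]
      congr 2
      funext t
      rw [tail_spec]
    have hlm : (List.ofFn (fun t => k ((σ 0).succAbove (tail σ t)))).prod = m := by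
      rw [prod_ofFn_perm (fun j => k ((σ 0).succAbove j)) (tail σ), hm]
    have hpos' : Pos (List.ofFn (fun t => k ((σ 0).succAbove (tail σ t)))) :=
      pos_ofFn_perm (k := fun j => k ((σ 0).succAbove j)) (fun j => hk _) (tail σ)
    have hpos := pos_ofFn_perm hk σ
    rcases Nat.eq_or_lt_of_le hα with h1 | h1
    · rw [h1, L, initSeg_full (good_lex σ), Finset.univ_inter, R,
        card_initSeg (good_rev σ) (by rw [card_box]; exact hβ), H_full hpos]
      rw [prod_ofFn_perm]
    · rw [hprod] at h1 hβ
      obtain ⟨p, s, hs, rfl⟩ : ∃ p s, s < m ∧ α = p * m + s :=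
        ⟨α / m, α % m, Nat.mod_lt _ hm0, (Nat.div_add_mod' α m).symm⟩
      obtain ⟨q, r, hr, rfl⟩ : ∃ q r, r < k (σ 0) ∧ β = q * k (σ 0) + r :=
        ⟨β / k (σ 0), β % k (σ 0), Nat.mod_lt _ hK0, (Nat.div_add_mod' β _).symm⟩
      have hp : p < k (σ 0) := by
        by_contra hcon
        have := Nat.mul_le_mul_right m (not_lt.1 hcon)
        omega
      have hq : q ≤ m := by
        by_contra hcon
        have := Nat.mul_le_mul_right (k (σ 0)) (not_le.1 hcon)
        rw [Nat.succ_mul, mul_comm m] at this
        omega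
      have hq2 : 0 < r → q < m := by
        intro h0
        by_contra hcon
        have := Nat.mul_le_mul_right (k (σ 0)) (not_lt.1 hcon)
        rw [mul_comm m] at this
        omega
      rw [inter_rec hm hs.le hp.le (fun h => by omega) hr hq hq2]
      rw [ih (fun j => k ((σ 0).succAbove j)) (fun j => hk _) (tail σ) s
        (q + if p < r then 1 else 0) (by rw [hm]; exact hs.le)
        (by rw [hm]; split_ifs with h; · exact hq2 (by omega)
            · exact hq)]
      rw [els]
      have e1 : p * m + s =
          p * (List.ofFn (fun t => k ((σ 0).succAbove (tail σ t)))).prod + s := by rw [hlm]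
      have e2 : q * k (σ 0) + r = k (σ 0) * q + r := by rw [mul_comm]
      rw [e1, e2, H_step hpos' hp (by rw [hlm]; exact hs.le) hr]

/-- slices of two order ideals in one direction, and `FSL` -/
theorem slice_FSL {n : ℕ} {k : Fin (n + 1) → ℕ} (i : Fin (n + 1)) {ls : List ℕ}
    (hls : ls.prod = ∏ j, k (i.succAbove j)) (F : FSL (k i) ls)
    (hrest : ∀ A B : Finset (Rest k i), IsDown A → IsDown B → H ls #A #B ≤ #(A ∩ B))
    {A B : Finset (Box k)} (hA : IsDown A) (hB : IsDown B) :
    ∃ l1 l2, l1 ++ l2 = ls ∧ H (l1 ++ k i :: l2) #A #B ≤ #(A ∩ B) := by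
  classical
  have hcol : ∀ C : Finset (Box k), ∑ z ∈ range (k i),
      (if h : z < k i then #(sl i C ⟨z, h⟩) else 0) = #C := by
    intro C
    rw [card_eq_sum_sl (i := i) C, Finset.sum_range]
    apply sum_congr rfl
    intro j _
    rw [dif_pos j.2]
  have hanti : ∀ C : Finset (Box k), IsDown C →
      Antitone (fun z => if h : z < k i then #(sl i C ⟨z, h⟩) else 0) := by
    intro C hC z z' hz
    simp only
    split_ifs with h1 h2
    · exact card_le_card (sl_anti hC (by simpa using hz))
    · omega
    · exact Nat.zero_le _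
    · exact le_rfl
  have hle : ∀ C : Finset (Box k), ∀ z,
      (if h : z < k i then #(sl i C ⟨z, h⟩) else 0) ≤ ls.prod := by
    intro C z
    split_ifs with h
    · refine (card_le_univ _).trans ?_
      rw [card_box, hls]
    · exact Nat.zero_le _
  obtain ⟨l1, l2, hl, hF⟩ := F (fun z => if h : z < k i then #(sl i A ⟨z, h⟩) else 0)
    (fun z => if h : z < k i then #(sl i B ⟨z, h⟩) else 0) (hanti A hA) (hanti B hB)
    (hle A) (hle B)
  refine ⟨l1, l2, hl, ?_⟩
  rw [hcol A, hcol B] at hF
  refine hF.trans ?_
  rw [← hcol (A ∩ B)]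
  apply sum_le_sum
  intro z hz
  have hz' := mem_range.1 hz
  rw [dif_pos hz', dif_pos hz', dif_pos hz', sl_inter]
  exact hrest _ _ (isDown_sl hA _) (isDown_sl hB _)

theorem insert_replicate {l n : ℕ} {l1 l2 : List ℕ} (h : l1 ++ l2 = List.replicate n l) :
    l1 ++ l :: l2 = List.replicate (n + 1) l := by
  rw [List.eq_replicate_iff] at h ⊢
  rw [List.length_append] at h
  refine ⟨by rw [List.length_append, List.length_cons]; omega, ?_⟩
  intro b hb
  rw [List.mem_append, List.mem_cons] at hb
  rcases hb with hb | hb | hb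
  · exact h.2 b (List.mem_append.2 (Or.inl hb))
  · exact hb
  · exact h.2 b (List.mem_append.2 (Or.inr hb))

/-- `k` equal to all the chain lengths -/
theorem FSL_replicate {l : ℕ} (hl : 0 < l) (n : ℕ) : FSL l (List.replicate n l) := by
  induction n with
  | zero => exact FSL_nil l
  | succ n ih =>
    have e : List.replicate (n + 1) l = List.replicate n l ++ ([] ++ [l]) := by
      rw [List.nil_append]; exact List.replicate_succ'
    have hpos : Pos (List.replicate n l) := by
      intro x hx
      rw [List.eq_of_mem_replicate hx]; exact hl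
    have hU := hpos.prod_pos
    intro a b ha hb ha' hb'
    rw [e] at ha' hb' ⊢
    have F' : FSL l (List.replicate n l ++ []) := by rw [List.append_nil]; exact ih
    refine FS.of_good hl hl hpos Pos.nil F' ha' hb' ?_
    intro ρ hρ
    have hd : ∀ z, (b z + ((List.replicate n l).prod - 1 - ρ)) / (List.replicate n l).prod ≤ l := by
      intro z
      rw [Nat.div_le_iff_le_mul_add_pred hU]
      have := hb' z
      simp only [List.nil_append, List.prod_append, List.prod_cons, List.prod_nil, mul_one] at this
      omega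
    obtain ⟨m1, m2, hm, hF⟩ := FSL_one hl hl
      (fun z => min (a z - lam (List.replicate n l) ρ * l) l)
      (fun z => (b z + ((List.replicate n l).prod - 1 - ρ)) / (List.replicate n l).prod)
      (fun z z' hz => by have := ha hz; simp only; omega)
      (fun z z' hz => Nat.div_le_div_right (by have := hb hz; omega))
      (fun z => by simp) (fun z => by simpa using hd z)
    have em : m1 ++ l :: m2 = [l, l] := by
      have := insert_replicate (l := l) (n := 1) (l1 := m1) (l2 := m2) (by simpa using hm)
      simpa using this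
    rw [em] at hF
    simp only [List.nil_append, List.prod_cons, List.prod_nil, mul_one]
    refine hF.trans (le_of_eq ?_)
    apply sum_congr rfl
    intro z _
    have h1 := H_clip (ls := [l]) (by simp [Pos, hl]) (a z - lam (List.replicate n l) ρ * l)
      ((b z + ((List.replicate n l).prod - 1 - ρ)) / (List.replicate n l).prod)
    simpa using h1

/-- the theorem of Daykin, Kleitman and West for equal chains -/
theorem cube_le : ∀ (n : ℕ) (l : ℕ) (k : Fin n → ℕ) (_ : 0 < l) (_ : ∀ i, k i = l)
    (A B : Finset (Box k)), IsDown A → IsDown B →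
    H (List.replicate n l) #A #B ≤ #(A ∩ B) := by
  classical
  intro n
  induction n with
  | zero =>
    intro l k hl hk A B hA hB
    rw [List.replicate_zero, H_nil]
    split_ifs with h
    · obtain ⟨x, hx⟩ := card_pos.1 h
      apply card_le_card
      intro y hy
      rw [mem_inter]
      have : y = x := funext fun i => Fin.elim0 i
      exact ⟨this ▸ hx, hy⟩
    · exact Nat.zero_le _
  | succ n ih =>
    intro l k hl hk A B hA hB
    have h1 : (List.replicate n l).prod = ∏ j, k ((0 : Fin (n + 1)).succAbove j) := by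
      rw [List.prod_replicate, Finset.prod_congr rfl (fun j _ => hk _)]
      simp
    obtain ⟨l1, l2, hl12, hF⟩ := slice_FSL (k := k) 0 h1
      (by rw [hk 0]; exact FSL_replicate hl n)
      (fun A' B' hA' hB' => ih l (fun j => k ((0 : Fin (n + 1)).succAbove j)) hl
        (fun j => hk _) A' B' hA' hB') hA hB
    rw [hk 0, insert_replicate hl12] at hF
    exact hF

/-- the order given by an insertion of the special chain -/
theorem exists_perm_insert {n : ℕ} {k : Fin (n + 1) → ℕ} {i : Fin (n + 1)} {l : ℕ}
    (hk : ∀ j, j ≠ i → k j = l) {l1 l2 : List ℕ} (h : l1 ++ l2 = List.replicate n l) :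
    ∃ σ : Equiv.Perm (Fin (n + 1)), List.ofFn (fun t => k (σ t)) = l1 ++ k i :: l2 := by
  have h' := List.eq_replicate_iff.1 h
  rw [List.length_append] at h'
  have ht : l1.length < n + 1 := by omega
  refine ⟨Equiv.swap ⟨l1.length, ht⟩ i, ?_⟩
  apply List.ext_getElem
  · rw [List.length_ofFn, List.length_append, List.length_cons]
    omega
  · intro s hs1 hs2
    rw [List.length_ofFn] at hs1
    rw [List.getElem_ofFn]
    rcases lt_trichotomy s l1.length with h1 | h1 | h1
    · have hne : (⟨s, hs1⟩ : Fin (n + 1)) ≠ ⟨l1.length, ht⟩ := by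
        intro e
        have := congrArg Fin.val e
        simp only at this
        omega
      have h2 : Equiv.swap (⟨l1.length, ht⟩ : Fin (n + 1)) i ⟨s, hs1⟩ ≠ i := by
        intro e
        rw [Equiv.swap_apply_eq_iff, Equiv.swap_apply_right] at e
        exact hne e
      rw [hk _ h2, List.getElem_append_left h1]
      symm
      exact h'.2 _ (List.mem_append.2 (Or.inl (List.getElem_mem h1)))
    · subst h1
      rw [Equiv.swap_apply_left, List.getElem_append_right le_rfl]
      simp
    · have hne : (⟨s, hs1⟩ : Fin (n + 1)) ≠ ⟨l1.length, ht⟩ := by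
        intro e
        have := congrArg Fin.val e
        simp only at this
        omega
      have h2 : Equiv.swap (⟨l1.length, ht⟩ : Fin (n + 1)) i ⟨s, hs1⟩ ≠ i := by
        intro e
        rw [Equiv.swap_apply_eq_iff, Equiv.swap_apply_right] at e
        exact hne e
      rw [hk _ h2, List.getElem_append_right h1.le]
      symm
      rw [List.getElem_cons]
      split_ifs with h3
      · omega
      · exact h'.2 _ (List.mem_append.2 (Or.inr (List.getElem_mem _)))

/-- reduction of the case of all chains but one equal to `FSL` -/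
theorem exists_perm_of_FSL {n : ℕ} {k : Fin (n + 1) → ℕ} {i : Fin (n + 1)} {l : ℕ}
    (hk : ∀ j, j ≠ i → k j = l) (hl : 0 < l) (hi : 0 < k i)
    (F : FSL (k i) (List.replicate n l)) {A B : Finset (Box k)} (hA : IsDown A)
    (hB : IsDown B) : ∃ σ : Equiv.Perm (Fin (n + 1)), #(L k σ #A ∩ R k σ #B) ≤ #(A ∩ B) := by
  classical
  have hpos : ∀ j, 0 < k j := by
    intro j
    by_cases h : j = i
    · rw [h]; exact hi
    · rw [hk j h]; exact hl
  have h1 : (List.replicate n l).prod = ∏ j, k (i.succAbove j) := by
    rw [List.prod_replicate, Finset.prod_congr rfl (fun j _ => hk _ (Fin.succAbove_ne i j))]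
    simp
  obtain ⟨l1, l2, hl12, hF⟩ := slice_FSL i h1 F
    (fun A' B' hA' hB' => cube_le n l (fun j => k (i.succAbove j)) hl
      (fun j => hk _ (Fin.succAbove_ne i j)) A' B' hA' hB') hA hB
  obtain ⟨σ, hσ⟩ := exists_perm_insert hk hl12
  refine ⟨σ, ?_⟩
  rw [card_inter_eq_H (n + 1) k hpos σ #A #B (by rw [← card_box]; exact card_le_univ _)
    (by rw [← card_box]; exact card_le_univ _), hσ]
  exact hF

end DKWF
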